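import Pool.Agent.Lib.MP_2fd4e2_co.Lip.Meet

/-!
Isosceles trapezoids inscribed in the union of two Lipschitz graphs.
-/

set_option autoImplicit false

namespace Pool.Agent.LipTrap

open Complex Set Filter Topology

variable {f g : ℝ → ℝ} {A B p q l : ℝ}

theorem extract (H : Hyp f g A B p q l) (hC2 : 2 * p * A < q * (1 - A ^ 2)) {a b : ℝ}
    (hab : a < b)
    (hfl : ∀ x ≤ a, f x = f a) (hfr : ∀ x, b ≤ x → f x = f b)
    (hgl : ∀ x ≤ a, g x = f a) (hgr : ∀ x, b ≤ x → g x = f b)
    (hlt : ∀ x ∈ Ioo a b, f x < g x) :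
    ∃ t u, t ∈ Ioo a b ∧ u ∈ Ioo a b ∧ t < u ∧
      t + p * (u - t) - q * (f u - f t) ∈ Ioo a b ∧
      u - p * (u - t) - q * (f u - f t) ∈ Ioo a b ∧
      f t + q * (u - t) + p * (f u - f t) = g (t + p * (u - t) - q * (f u - f t)) ∧
      f u + q * (u - t) - p * (f u - f t) = g (u - p * (u - t) - q * (f u - f t)) := by
  obtain ⟨t, ht, u, htu, h4, h3⟩ := meet H hab hfl hfr hgl hgr hlt
  have hq := H.hq
  have hp := H.hp
  have hA := H.hA
  have hB := H.hB
  have hC := H.hC
  have hfg : ∀ t, t ∉ Ioo a b → g t = f t := by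
    intro t ht
    rcases le_or_gt t a with h | h
    · rw [hgl t h, hfl t h]
    · rcases le_or_gt b t with h1 | h1
      · rw [hgr t h1, hfr t h1]
      · exact absurd ⟨h, h1⟩ ht
  have e4 : z4re f p q ⟨t, f t⟩ u = t + p * (u - t) - q * (f u - f t) := rfl
  have e4' : z4im f p q ⟨t, f t⟩ u = f t + q * (u - t) + p * (f u - f t) := rfl
  have e3 : t + p * (u - t) - q * (f u - f t) + l * (u - t)
      = u - p * (u - t) - q * (f u - f t) := by rw [H.hl]; ring
  have e3' : f t + q * (u - t) + p * (f u - f t) + l * (f u - f t)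
      = f u + q * (u - t) - p * (f u - f t) := by rw [H.hl]; ring
  rw [e4, e4'] at h4 h3
  rw [e3, e3'] at h3
  have hd : 0 < u - t := by linarith
  have hfL := H.hf u t
  rw [abs_of_pos hd] at hfL
  have hfL' := abs_le.mp hfL
  have hqd : 0 < q * (u - t) := mul_pos hq hd
  -- bounds
  have b1 : (q - p * A) * (u - t) ≤ q * (u - t) - p * (f u - f t) := by
    have m1 := mul_le_mul_of_nonneg_left hfL'.2 hp
    linarith
  have b1' : (q - p * A) * (u - t) ≤ q * (u - t) + p * (f u - f t) := by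
    have m1 := mul_le_mul_of_nonneg_left hfL'.1 hp
    linarith
  have b2 : |-(p * (u - t)) - q * (f u - f t)| ≤ (p + q * A) * (u - t) := by
    rw [abs_le]
    have m1 := mul_le_mul_of_nonneg_left hfL'.2 hq.le
    have m2 := mul_le_mul_of_nonneg_left hfL'.1 hq.le
    have m3 := mul_nonneg hp hd.le
    constructor
    · linarith
    · linarith
  have b3 : |p * (u - t) - q * (f u - f t)| ≤ (p + q * A) * (u - t) := by
    rw [abs_le]
    have m1 := mul_le_mul_of_nonneg_left hfL'.2 hq.le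
    have m2 := mul_le_mul_of_nonneg_left hfL'.1 hq.le
    have m3 := mul_nonneg hp hd.le
    constructor
    · linarith
    · linarith
  have b4 := mul_le_mul_of_nonneg_left b2 hB
  have b5 := mul_le_mul_of_nonneg_left b2 hA
  have b6 := mul_le_mul_of_nonneg_left b3 hA
  have k1 : 0 < (q * (1 - A * B) - p * (A + B)) * (u - t) := mul_pos (by linarith) hd
  have k2 : 0 < (q * (1 - A ^ 2) - 2 * p * A) * (u - t) := mul_pos (by linarith) hd
  refine ⟨t, u, ht, ?_, htu, ?_, ?_, h4, h3⟩
  · -- `u ∈ (a, b)`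
    by_contra hu
    have h5 := H.hg (u - p * (u - t) - q * (f u - f t)) u
    rw [← h3, hfg u hu] at h5
    have e : u - p * (u - t) - q * (f u - f t) - u = -(p * (u - t)) - q * (f u - f t) := by ring
    rw [e] at h5
    have h6 := (le_abs_self _).trans h5
    linarith
  · by_contra hx
    have h5 := H.hf (t + p * (u - t) - q * (f u - f t)) t
    rw [← hfg _ hx, ← h4] at h5
    have e : t + p * (u - t) - q * (f u - f t) - t = p * (u - t) - q * (f u - f t) := by ring
    rw [e] at h5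
    have h6 := (le_abs_self _).trans h5
    linarith
  · by_contra hx
    have h5 := H.hf (u - p * (u - t) - q * (f u - f t)) u
    rw [← hfg _ hx, ← h3] at h5
    have e : u - p * (u - t) - q * (f u - f t) - u = -(p * (u - t)) - q * (f u - f t) := by ring
    rw [e] at h5
    have h6 := (le_abs_self _).trans h5
    linarith

/-- clamping to `[a, b]` -/
noncomputable def cl (a b x : ℝ) : ℝ := max a (min x b)

theorem cl_mem {a b : ℝ} (hab : a ≤ b) (x : ℝ) : cl a b x ∈ Icc a b :=
  ⟨le_max_left _ _, max_le hab (min_le_right _ _)⟩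

theorem cl_of_mem {a b x : ℝ} (hx : x ∈ Icc a b) : cl a b x = x := by
  unfold cl
  rw [min_eq_left hx.2, max_eq_right hx.1]

theorem cl_left {a b x : ℝ} (hx : x ≤ a) : cl a b x = a := by
  unfold cl
  exact max_eq_left ((min_le_left _ _).trans hx)

theorem cl_right {a b x : ℝ} (hab : a ≤ b) (hx : b ≤ x) : cl a b x = b := by
  unfold cl
  rw [min_eq_right hx, max_eq_right hab]

theorem cl_lip {a b : ℝ} (x y : ℝ) : |cl a b x - cl a b y| ≤ |x - y| := by
  unfold cl
  have h1 : |max a (min x b) - max a (min y b)| ≤ |min x b - min y b| := by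
    have := abs_max_sub_max_le_max a (min x b) a (min y b)
    simpa using this
  have h2 : |min x b - min y b| ≤ |x - y| := by
    have := abs_min_sub_min_le_max x b y b
    simpa using this
  exact h1.trans h2

/-- the curve -/
def curve (f g : ℝ → ℝ) (a b : ℝ) : Set ℂ :=
  {z | z.re ∈ Icc a b ∧ (z.im = f z.re ∨ z.im = g z.re)}

theorem inscribed_aux {f g : ℝ → ℝ} {A B p q a b : ℝ} (hA : 0 ≤ A) (hB : 0 ≤ B) (hp : 0 ≤ p)
    (hq : 0 < q) (hp1 : 2 * p < 1) (hC : p * (A + B) < q * (1 - A * B)) (hAB : A ≤ B)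
    (hab : a < b)
    (hf : ∀ x ∈ Icc a b, ∀ y ∈ Icc a b, |f x - f y| ≤ A * |x - y|)
    (hg : ∀ x ∈ Icc a b, ∀ y ∈ Icc a b, |g x - g y| ≤ B * |x - y|)
    (ha : f a = g a) (hb : f b = g b) (hlt : ∀ x ∈ Ioo a b, f x < g x) :
    ∃ α β : ℂ, α ≠ 0 ∧ α * 0 + β ∈ curve f g a b ∧ α * 1 + β ∈ curve f g a b ∧
      α * (1 - ⟨p, -q⟩) + β ∈ curve f g a b ∧ α * ⟨p, q⟩ + β ∈ curve f g a b := by
  set F : ℝ → ℝ := fun x => f (cl a b x) with hF
  set G : ℝ → ℝ := fun x => g (cl a b x) with hG
  have hFin : ∀ x ∈ Icc a b, F x = f x := fun x hx => by simp only [hF]; rw [cl_of_mem hx]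
  have hGin : ∀ x ∈ Icc a b, G x = g x := fun x hx => by simp only [hG]; rw [cl_of_mem hx]
  have haI : a ∈ Icc a b := ⟨le_rfl, hab.le⟩
  have hbI : b ∈ Icc a b := ⟨hab.le, le_rfl⟩
  have H : Hyp F G A B p q (1 - 2 * p) :=
    { hA := hA
      hB := hB
      hp := hp
      hq := hq
      hl := rfl
      hl0 := by linarith
      hf := fun x y => (hf _ (cl_mem hab.le x) _ (cl_mem hab.le y)).trans
        (mul_le_mul_of_nonneg_left (cl_lip x y) hA)
      hg := fun x y => (hg _ (cl_mem hab.le x) _ (cl_mem hab.le y)).trans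
        (mul_le_mul_of_nonneg_left (cl_lip x y) hB)
      hC := hC }
  have hC2 : 2 * p * A < q * (1 - A ^ 2) := by
    have h1 : p * A ≤ p * B := mul_le_mul_of_nonneg_left hAB hp
    have h2 : q * (A * A) ≤ q * (A * B) :=
      mul_le_mul_of_nonneg_left (mul_le_mul_of_nonneg_left hAB hA) hq.le
    nlinarith
  obtain ⟨t, u, ht, hu, htu, hx4, hx3, h4, h3⟩ := extract H hC2 hab
    (fun x hx => by simp only [hF]; rw [cl_left hx, cl_left le_rfl])
    (fun x hx => by simp only [hF]; rw [cl_right hab.le hx, cl_right hab.le le_rfl])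
    (fun x hx => by simp only [hF, hG]; rw [cl_left hx, cl_left le_rfl, ha])
    (fun x hx => by simp only [hF, hG]; rw [cl_right hab.le hx, cl_right hab.le le_rfl, hb])
    (fun x hx => by
      rw [hFin x ⟨hx.1.le, hx.2.le⟩, hGin x ⟨hx.1.le, hx.2.le⟩]
      exact hlt x hx)
  have htI : t ∈ Icc a b := ⟨ht.1.le, ht.2.le⟩
  have huI : u ∈ Icc a b := ⟨hu.1.le, hu.2.le⟩
  have hx4I := (⟨hx4.1.le, hx4.2.le⟩ : _ ∈ Icc a b)
  have hx3I := (⟨hx3.1.le, hx3.2.le⟩ : _ ∈ Icc a b)
  rw [hGin _ hx4I] at h4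
  rw [hGin _ hx3I] at h3
  rw [hFin t htI, hFin u huI] at h4 h3 hx4I hx3I
  refine ⟨⟨u - t, f u - f t⟩, ⟨t, f t⟩, ?_, ?_, ?_, ?_, ?_⟩
  · intro h
    have := congrArg Complex.re h
    simp only [Complex.zero_re] at this
    linarith
  · have e : (⟨u - t, f u - f t⟩ : ℂ) * 0 + ⟨t, f t⟩ = ⟨t, f t⟩ := by simp
    rw [e]
    exact ⟨htI, Or.inl rfl⟩
  · have e : (⟨u - t, f u - f t⟩ : ℂ) * 1 + ⟨t, f t⟩ = ⟨u, f u⟩ := by
      apply Complex.ext <;> simp
    rw [e]
    exact ⟨huI, Or.inl rfl⟩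
  · have e : (⟨u - t, f u - f t⟩ : ℂ) * (1 - ⟨p, -q⟩) + ⟨t, f t⟩
        = ⟨u - p * (u - t) - q * (f u - f t), f u + q * (u - t) - p * (f u - f t)⟩ := by
      apply Complex.ext
      · simp only [Complex.add_re, Complex.mul_re, Complex.sub_re, Complex.sub_im,
          Complex.one_re, Complex.one_im]
        ring
      · simp only [Complex.add_im, Complex.mul_im, Complex.sub_re, Complex.sub_im,
          Complex.one_re, Complex.one_im]
        ring
    rw [e]
    exact ⟨hx3I, Or.inr h3⟩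
  · have e : (⟨u - t, f u - f t⟩ : ℂ) * ⟨p, q⟩ + ⟨t, f t⟩
        = ⟨t + p * (u - t) - q * (f u - f t), f t + q * (u - t) + p * (f u - f t)⟩ := by
      apply Complex.ext
      · simp only [Complex.add_re, Complex.mul_re]
        ring
      · simp only [Complex.add_im, Complex.mul_im]
        ring
    rw [e]
    exact ⟨hx4I, Or.inr h4⟩

theorem inscribed {f g : ℝ → ℝ} {A B p q a b : ℝ} (hA : 0 ≤ A) (hB : 0 ≤ B) (hp : 0 ≤ p)
    (hq : 0 < q) (hp1 : 2 * p < 1) (hC : p * (A + B) < q * (1 - A * B))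
    (hab : a < b)
    (hf : ∀ x ∈ Icc a b, ∀ y ∈ Icc a b, |f x - f y| ≤ A * |x - y|)
    (hg : ∀ x ∈ Icc a b, ∀ y ∈ Icc a b, |g x - g y| ≤ B * |x - y|)
    (ha : f a = g a) (hb : f b = g b) (hlt : ∀ x ∈ Ioo a b, f x < g x) :
    ∃ α β : ℂ, α ≠ 0 ∧ α * 0 + β ∈ curve f g a b ∧ α * 1 + β ∈ curve f g a b ∧
      α * (1 - ⟨p, -q⟩) + β ∈ curve f g a b ∧ α * ⟨p, q⟩ + β ∈ curve f g a b := by
  rcases le_total A B with hAB | hAB
  · exact inscribed_aux hA hB hp hq hp1 hC hAB hab hf hg ha hb hlt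
  · obtain ⟨α, β, hα, h1, h2, h3, h4⟩ := inscribed_aux (f := fun x => -g x) (g := fun x => -f x)
      hB hA hp hq hp1 (by linarith) hAB hab
      (fun x hx y hy => by
        have := hg x hx y hy
        rwa [show -g x - -g y = -(g x - g y) by ring, abs_neg])
      (fun x hx y hy => by
        have := hf x hx y hy
        rwa [show -f x - -f y = -(f x - f y) by ring, abs_neg])
      (by rw [ha]) (by rw [hb]) (fun x hx => neg_lt_neg (hlt x hx))
    have hconj : ∀ z : ℂ, z ∈ curve (fun x => -g x) (fun x => -f x) a b →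
        (starRingEnd ℂ) z ∈ curve f g a b := by
      rintro z ⟨hz1, hz2⟩
      refine ⟨by simpa using hz1, ?_⟩
      simp only [Complex.conj_re, Complex.conj_im]
      rcases hz2 with h | h
      · right; rw [h]; ring
      · left; rw [h]; ring
    have key : ∀ z w : ℂ, w = 1 - (starRingEnd ℂ) z →
        α * w + β ∈ curve (fun x => -g x) (fun x => -f x) a b →
        -(starRingEnd ℂ) α * z + ((starRingEnd ℂ) α + (starRingEnd ℂ) β) ∈ curve f g a b := by
      intro z w hw h
      have h5 := hconj _ h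
      have e : (starRingEnd ℂ) (α * w + β)
          = -(starRingEnd ℂ) α * z + ((starRingEnd ℂ) α + (starRingEnd ℂ) β) := by
        rw [hw]
        simp only [map_add, map_mul, map_sub, map_one, Complex.conj_conj]
        ring
      rwa [e] at h5
    refine ⟨-(starRingEnd ℂ) α, (starRingEnd ℂ) α + (starRingEnd ℂ) β, ?_, ?_, ?_, ?_, ?_⟩
    · simpa using hα
    · exact key 0 1 (by simp) h2
    · exact key 1 0 (by simp) h1
    · refine key _ ⟨p, q⟩ ?_ h4
      apply Complex.ext <;> simp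
    · refine key _ (1 - ⟨p, -q⟩) ?_ h3
      apply Complex.ext <;> simp

theorem trig_cond {φ A B : ℝ} (hφ : φ ≤ Real.pi / 2) (hA : 0 ≤ A) (hB : 0 ≤ B)
    (h : Real.arctan A + Real.arctan B < φ) :
    Real.cos φ * (A + B) < Real.sin φ * (1 - A * B) := by
  have h1 : 0 ≤ Real.arctan A := by
    rw [← Real.arctan_zero]; exact Real.arctan_strictMono.monotone hA
  have h2 : 0 ≤ Real.arctan B := by
    rw [← Real.arctan_zero]; exact Real.arctan_strictMono.monotone hB
  have hpi := Real.pi_pos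
  have h3 : 0 < Real.sin (φ - (Real.arctan A + Real.arctan B)) :=
    Real.sin_pos_of_pos_of_lt_pi (by linarith) (by linarith)
  have cA := Real.cos_arctan_pos A
  have cB := Real.cos_arctan_pos B
  have sA : Real.sin (Real.arctan A) = A * Real.cos (Real.arctan A) := by
    have := Real.tan_arctan A
    rw [Real.tan_eq_sin_div_cos, div_eq_iff cA.ne'] at this
    exact this
  have sB : Real.sin (Real.arctan B) = B * Real.cos (Real.arctan B) := by
    have := Real.tan_arctan B
    rw [Real.tan_eq_sin_div_cos, div_eq_iff cB.ne'] at this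
    exact this
  rw [Real.sin_sub, Real.cos_add, Real.sin_add, sA, sB] at h3
  have h4 : 0 < (Real.cos (Real.arctan A) * Real.cos (Real.arctan B)) *
      (Real.sin φ * (1 - A * B) - Real.cos φ * (A + B)) := by
    calc 0 < _ := h3
      _ = _ := by ring
  have h5 := (mul_pos_iff_of_pos_left (mul_pos cA cB)).mp h4
  linarith

end Pool.Agent.LipTrap
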