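import Pool.Agent.Lib.MP_2fd4e2_co.Lip.Wind

/-!
Integrals of crossing numbers over a box.
-/

set_option autoImplicit false

namespace Pool.Agent.LipTrap

open Complex Set Filter Topology MeasureTheory
open scoped ENNReal

/-- the point of the complex plane with given coordinates -/
def toC (p : ℝ × ℝ) : ℂ := ⟨p.1, p.2⟩

/-- the box `[x0, x1] × [-M, M]` as a measure -/
noncomputable def box (x0 x1 M : ℝ) : Measure (ℝ × ℝ) :=
  (volume.restrict (Icc x0 x1)).prod (volume.restrict (Icc (-M) M))

instance (x0 x1 M : ℝ) : IsFiniteMeasure (box x0 x1 M) := by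
  unfold box; infer_instance

theorem measurable_chi (a b : ℂ) : Measurable (fun p : ℝ × ℝ => chi a b (toC p)) := by
  have hc : Measurable (fun p : ℝ × ℝ =>
      (a.re - p.1) * (b.im - p.2) - (a.im - p.2) * (b.re - p.1)) := by fun_prop
  unfold chi toC
  simp only [Complex.sub_re, Complex.sub_im]
  refine Measurable.ite ?_ measurable_const (Measurable.ite ?_ measurable_const measurable_const)
  · exact (measurableSet_lt measurable_const measurable_fst).inter
      ((measurableSet_le measurable_fst measurable_const).inter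
        (measurableSet_lt hc measurable_const))
  · exact (measurableSet_lt measurable_const measurable_fst).inter
      ((measurableSet_le measurable_fst measurable_const).inter
        (measurableSet_lt measurable_const hc))

theorem measurable_rhoL (P : ℂ) : Measurable (fun p : ℝ × ℝ => rhoL P (toC p)) := by
  unfold rhoL toC
  refine Measurable.ite ?_ measurable_const measurable_const
  exact (measurableSet_le measurable_fst measurable_const).inter
      (measurableSet_lt measurable_snd measurable_const)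

theorem measurable_rhoR (P : ℂ) : Measurable (fun p : ℝ × ℝ => rhoR P (toC p)) := by
  unfold rhoR toC
  refine Measurable.ite ?_ measurable_const measurable_const
  exact (measurableSet_lt measurable_const measurable_fst).inter
      (measurableSet_lt measurable_snd measurable_const)

theorem abs_chi_le (a b p : ℂ) : |chi a b p| ≤ 1 := by
  unfold chi; split_ifs <;> simp

theorem abs_rhoL_le (a p : ℂ) : |rhoL a p| ≤ 1 := by
  unfold rhoL; split_ifs <;> simp

theorem abs_rhoR_le (a p : ℂ) : |rhoR a p| ≤ 1 := by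
  unfold rhoR; split_ifs <;> simp

theorem integrable_chi (a b : ℂ) (x0 x1 M : ℝ) :
    Integrable (fun p : ℝ × ℝ => chi a b (toC p)) (box x0 x1 M) :=
  Integrable.of_bound (measurable_chi a b).aestronglyMeasurable 1
    (Eventually.of_forall fun p => by rw [Real.norm_eq_abs]; exact abs_chi_le _ _ _)

theorem integrable_rhoL (a : ℂ) (x0 x1 M : ℝ) :
    Integrable (fun p : ℝ × ℝ => rhoL a (toC p)) (box x0 x1 M) :=
  Integrable.of_bound (measurable_rhoL a).aestronglyMeasurable 1
    (Eventually.of_forall fun p => by rw [Real.norm_eq_abs]; exact abs_rhoL_le _ _)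

theorem integrable_rhoR (a : ℂ) (x0 x1 M : ℝ) :
    Integrable (fun p : ℝ × ℝ => rhoR a (toC p)) (box x0 x1 M) :=
  Integrable.of_bound (measurable_rhoR a).aestronglyMeasurable 1
    (Eventually.of_forall fun p => by rw [Real.norm_eq_abs]; exact abs_rhoR_le _ _)

theorem integral_lt {M l : ℝ} (h1 : -M ≤ l) (h2 : l ≤ M) :
    ∫ y in Icc (-M) M, (if y < l then (1 : ℝ) else 0) = l + M := by
  have h3 : (fun y : ℝ => if y < l then (1 : ℝ) else 0) = (Iio l).indicator (fun _ => 1) := by
    funext y
    simp [Set.indicator_apply]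
  rw [h3, integral_indicator measurableSet_Iio, Measure.restrict_restrict measurableSet_Iio]
  have h4 : Iio l ∩ Icc (-M) M = Ico (-M) l := by
    ext y
    simp only [mem_inter_iff, mem_Iio, mem_Icc, mem_Ico]
    constructor
    · rintro ⟨a, b, c⟩; exact ⟨b, a⟩
    · rintro ⟨a, b⟩; exact ⟨b, a, by linarith⟩
  rw [h4]
  simp
  linarith

/-- the height of the line through `a` and `b` above the abscissa `x`, plus `M` -/
noncomputable def ell (a b : ℂ) (M x : ℝ) : ℝ :=
  a.im + (x - a.re) * ((b.im - a.im) / (b.re - a.re)) + M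

theorem inner_chi {a b : ℂ} {M : ℝ} (ha : |a.im| ≤ M) (hb : |b.im| ≤ M) (x : ℝ) :
    ∫ y in Icc (-M) M, chi a b (toC (x, y))
      = (Ioc a.re b.re).indicator (ell a b M) x - (Ioc b.re a.re).indicator (ell a b M) x := by
  rw [abs_le] at ha hb
  by_cases h1 : x ∈ Ioc a.re b.re
  · have h2 : x ∉ Ioc b.re a.re := fun h => by
      have := h1.1; have := h1.2; have := h.1; have := h.2; linarith
    rw [indicator_of_mem h1, indicator_of_notMem h2, sub_zero]
    have hd : 0 < b.re - a.re := by have := h1.1; have := h1.2; linarith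
    set t := (x - a.re) / (b.re - a.re) with ht
    have ht0 : 0 ≤ t := div_nonneg (by linarith [h1.1]) hd.le
    have ht1 : t ≤ 1 := by rw [ht, div_le_one hd]; linarith [h1.2]
    have hl : ell a b M x = (a.im + t * (b.im - a.im)) + M := by
      unfold ell; rw [ht]; ring
    rw [hl, ← integral_lt (M := M) (l := a.im + t * (b.im - a.im)) (by nlinarith) (by nlinarith)]
    congr 1
    funext y
    unfold chi toC
    simp only [Complex.sub_re, Complex.sub_im]
    have hx : x = a.re + t * (b.re - a.re) := by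
      rw [ht, div_mul_cancel₀ _ hd.ne']; ring
    by_cases hy : y < a.im + t * (b.im - a.im)
    · have h3 : (a.re - x) * (b.im - y) - (a.im - y) * (b.re - x) < 0 := by
        calc _ = (b.re - a.re) * (y - (a.im + t * (b.im - a.im))) := by rw [hx]; ring
          _ < 0 := by nlinarith
      rw [if_pos hy, if_pos ⟨h1.1, h1.2, h3⟩]
    · rw [if_neg hy, if_neg, if_neg]
      · rintro ⟨h3, _⟩; linarith [h1.2]
      · rintro ⟨_, _, h3⟩
        apply hy
        have : (b.re - a.re) * (y - (a.im + t * (b.im - a.im))) < 0 := by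
          calc _ = (a.re - x) * (b.im - y) - (a.im - y) * (b.re - x) := by rw [hx]; ring
            _ < 0 := h3
        by_contra hcon
        push Not at hcon
        nlinarith
  · rw [indicator_of_notMem h1, zero_sub]
    by_cases h2 : x ∈ Ioc b.re a.re
    · rw [indicator_of_mem h2]
      have hd : 0 < a.re - b.re := by have := h2.1; have := h2.2; linarith
      set t := (x - a.re) / (b.re - a.re) with ht
      have hd' : b.re - a.re < 0 := by linarith
      have ht0 : 0 ≤ t := div_nonneg_of_nonpos (by linarith [h2.2]) hd'.le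
      have ht1 : t ≤ 1 := by
        rw [ht, div_le_one_iff]; right; right; exact ⟨hd', by linarith [h2.1]⟩
      have hl : ell a b M x = (a.im + t * (b.im - a.im)) + M := by
        unfold ell; rw [ht]; ring
      rw [hl, ← integral_lt (M := M) (l := a.im + t * (b.im - a.im)) (by nlinarith) (by nlinarith),
        ← integral_neg]
      congr 1
      funext y
      unfold chi toC
      simp only [Complex.sub_re, Complex.sub_im]
      have hx : x = a.re + t * (b.re - a.re) := by
        rw [ht, div_mul_cancel₀ _ hd'.ne]; ring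
      rw [if_neg (fun h => h1 ⟨h.1, h.2.1⟩)]
      by_cases hy : y < a.im + t * (b.im - a.im)
      · have h3 : 0 < (a.re - x) * (b.im - y) - (a.im - y) * (b.re - x) := by
          calc 0 < (b.re - a.re) * (y - (a.im + t * (b.im - a.im))) := by nlinarith
            _ = _ := by rw [hx]; ring
        rw [if_pos hy, if_pos ⟨h2.1, h2.2, h3⟩]
      · rw [if_neg hy, if_neg, neg_zero]
        · rintro ⟨_, _, h3⟩
          apply hy
          have : 0 < (b.re - a.re) * (y - (a.im + t * (b.im - a.im))) := by
            calc _ < (a.re - x) * (b.im - y) - (a.im - y) * (b.re - x) := h3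
              _ = (b.re - a.re) * (y - (a.im + t * (b.im - a.im))) := by rw [hx]; ring
          by_contra hcon
          push Not at hcon
          nlinarith
    · rw [indicator_of_notMem h2, neg_zero]
      have : ∀ y : ℝ, chi a b (toC (x, y)) = 0 := by
        intro y
        unfold chi toC
        rw [if_neg (fun h => h1 ⟨h.1, h.2.1⟩), if_neg (fun h => h2 ⟨h.1, h.2.1⟩)]
      simp [this]

theorem integral_chi {a b : ℂ} {M x0 x1 : ℝ} (ha : |a.im| ≤ M) (hb : |b.im| ≤ M)
    (ha0 : x0 ≤ a.re) (hb0 : x0 ≤ b.re) (ha1 : a.re ≤ x1) (hb1 : b.re ≤ x1) :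
    ∫ p, chi a b (toC p) ∂(box x0 x1 M) = (b.re - a.re) * ((a.im + b.im) / 2 + M) := by
  have hint := integrable_chi a b x0 x1 M
  unfold box at hint ⊢
  rw [integral_prod _ hint]
  simp only [inner_chi ha hb]
  have hcont : Continuous (ell a b M) := by unfold ell; fun_prop
  have hI : ∀ c d : ℝ, IntegrableOn (ell a b M) (Ioc c d) := fun c d =>
    (hcont.integrableOn_Icc).mono_set Ioc_subset_Icc_self
  rw [integral_sub]
  · rw [integral_indicator measurableSet_Ioc, integral_indicator measurableSet_Ioc,
      Measure.restrict_restrict measurableSet_Ioc, Measure.restrict_restrict measurableSet_Ioc]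
    have e1 : Ioc a.re b.re ∩ Icc x0 x1 = Ioc a.re b.re := by
      apply inter_eq_left.mpr
      intro y hy
      exact ⟨by linarith [hy.1], by linarith [hy.2]⟩
    have e2 : Ioc b.re a.re ∩ Icc x0 x1 = Ioc b.re a.re := by
      apply inter_eq_left.mpr
      intro y hy
      exact ⟨by linarith [hy.1], by linarith [hy.2]⟩
    rw [e1, e2]
    change ∫ x in a.re..b.re, ell a b M x = _
    by_cases hab : a.re = b.re
    · rw [hab]; simp
    · have hne : b.re - a.re ≠ 0 := fun h => hab (by linarith)
      have : ∫ x in a.re..b.re, ell a b M x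
          = (a.im + M - a.re * ((b.im - a.im) / (b.re - a.re))) * (b.re - a.re)
            + ((b.im - a.im) / (b.re - a.re)) * ((b.re ^ 2 - a.re ^ 2) / 2) := by
        have e3 : (fun x => ell a b M x) = fun x =>
            (a.im + M - a.re * ((b.im - a.im) / (b.re - a.re)))
              + ((b.im - a.im) / (b.re - a.re)) * x := by
          funext x; unfold ell; ring
        rw [e3, intervalIntegral.integral_add (by simp) (by
          apply Continuous.intervalIntegrable; fun_prop), intervalIntegral.integral_const_mul,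
          integral_id]
        simp
        ring
      rw [this]
      field_simp
      ring
  · exact ((integrable_indicator_iff measurableSet_Ioc).mpr (hI _ _)).restrict
  · exact ((integrable_indicator_iff measurableSet_Ioc).mpr (hI _ _)).restrict

theorem integral_rhoL {P : ℂ} {M x0 x1 : ℝ} (hP : |P.im| ≤ M) (h0 : x0 ≤ P.re)
    (h1 : P.re ≤ x1) :
    ∫ p, rhoL P (toC p) ∂(box x0 x1 M) = (P.re - x0) * (P.im + M) := by
  have hint := integrable_rhoL P x0 x1 M
  rw [abs_le] at hP
  unfold box at hint ⊢
  rw [integral_prod _ hint]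
  have h2 : ∀ x : ℝ, ∫ y in Icc (-M) M, rhoL P (toC (x, y))
      = (Iic P.re).indicator (fun _ => P.im + M) x := by
    intro x
    by_cases hx : x ≤ P.re
    · rw [indicator_of_mem (show x ∈ Iic P.re from hx), ← integral_lt (M := M) (l := P.im) hP.1 hP.2]
      congr 1
      funext y
      unfold rhoL toC
      simp [hx]
    · rw [indicator_of_notMem (show x ∉ Iic P.re from hx)]
      have : ∀ y : ℝ, rhoL P (toC (x, y)) = 0 := by
        intro y
        unfold rhoL toC
        simp [hx]
      simp [this]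
  simp only [h2]
  rw [integral_indicator measurableSet_Iic, Measure.restrict_restrict measurableSet_Iic]
  have e1 : Iic P.re ∩ Icc x0 x1 = Icc x0 P.re := by
    ext y
    simp only [mem_inter_iff, mem_Iic, mem_Icc]
    constructor
    · rintro ⟨a, b, c⟩; exact ⟨b, a⟩
    · rintro ⟨a, b⟩; exact ⟨b, a, by linarith⟩
  rw [e1]
  simp [h0]

theorem integral_rhoR {P : ℂ} {M x0 x1 : ℝ} (hP : |P.im| ≤ M) (h0 : x0 ≤ P.re)
    (h1 : P.re ≤ x1) :
    ∫ p, rhoR P (toC p) ∂(box x0 x1 M) = (x1 - P.re) * (P.im + M) := by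
  have hint := integrable_rhoR P x0 x1 M
  rw [abs_le] at hP
  unfold box at hint ⊢
  rw [integral_prod _ hint]
  have h2 : ∀ x : ℝ, ∫ y in Icc (-M) M, rhoR P (toC (x, y))
      = (Ioi P.re).indicator (fun _ => P.im + M) x := by
    intro x
    by_cases hx : P.re < x
    · rw [indicator_of_mem (show x ∈ Ioi P.re from hx), ← integral_lt (M := M) (l := P.im) hP.1 hP.2]
      congr 1
      funext y
      unfold rhoR toC
      simp [hx]
    · rw [indicator_of_notMem (show x ∉ Ioi P.re from hx)]
      have : ∀ y : ℝ, rhoR P (toC (x, y)) = 0 := by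
        intro y
        unfold rhoR toC
        simp [hx]
      simp [this]
  simp only [h2]
  rw [integral_indicator measurableSet_Ioi, Measure.restrict_restrict measurableSet_Ioi]
  have e1 : Ioi P.re ∩ Icc x0 x1 = Ioc P.re x1 := by
    ext y
    simp only [mem_inter_iff, mem_Ioi, mem_Icc, mem_Ioc]
    constructor
    · rintro ⟨a, b, c⟩; exact ⟨a, c⟩
    · rintro ⟨a, b⟩; exact ⟨a, by linarith, b⟩
  rw [e1]
  simp [h1]

/-- trapezoid sum of a polygonal line -/
noncomputable def trap (v : ℕ → ℂ) (n : ℕ) : ℝ :=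
  ∑ i ∈ Finset.range n, ((v (i + 1)).re - (v i).re) * (((v i).im + (v (i + 1)).im) / 2)

theorem measurable_X (v : ℕ → ℂ) (n : ℕ) : Measurable (fun p : ℝ × ℝ => X v n (toC p)) := by
  unfold X
  exact ((Finset.measurable_fun_sum _ fun i _ => measurable_chi _ _).add
    (measurable_rhoL _)).add (measurable_rhoR _)

theorem integral_X {v : ℕ → ℂ} {n : ℕ} {M x0 x1 : ℝ} (h : ∀ i ≤ n, |(v i).im| ≤ M)
    (h0 : ∀ i ≤ n, x0 ≤ (v i).re) (h1 : ∀ i ≤ n, (v i).re ≤ x1) :
    ∫ p, X v n (toC p) ∂(box x0 x1 M) = trap v n + M * ((v n).re - (v 0).re)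
      + ((v 0).re - x0) * ((v 0).im + M) + (x1 - (v n).re) * ((v n).im + M) := by
  unfold X
  have e1 : Integrable (fun p : ℝ × ℝ =>
      ∑ i ∈ Finset.range n, chi (v i) (v (i + 1)) (toC p)) (box x0 x1 M) :=
    integrable_finsetSum _ fun i _ => integrable_chi _ _ _ _ _
  have e3 : Integrable (fun p : ℝ × ℝ =>
      ∑ i ∈ Finset.range n, chi (v i) (v (i + 1)) (toC p) + rhoL (v 0) (toC p)) (box x0 x1 M) :=
    e1.add (integrable_rhoL _ _ _ _)
  rw [integral_add e3 (integrable_rhoR _ _ _ _),
    integral_add e1 (integrable_rhoL _ _ _ _), integral_rhoL (h 0 (Nat.zero_le _))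
      (h0 0 (Nat.zero_le _)) (h1 0 (Nat.zero_le _)), integral_rhoR (h n le_rfl)
      (h0 n le_rfl) (h1 n le_rfl), integral_finsetSum _ (fun i _ => integrable_chi _ _ _ _ _)]
  have e2 : ∑ i ∈ Finset.range n, ∫ p, chi (v i) (v (i + 1)) (toC p) ∂(box x0 x1 M)
      = ∑ i ∈ Finset.range n, (((v (i + 1)).re - (v i).re) * (((v i).im + (v (i + 1)).im) / 2)
        + M * ((v (i + 1)).re - (v i).re)) := by
    apply Finset.sum_congr rfl
    intro i hi
    have hi' := Finset.mem_range.mp hi
    rw [integral_chi (h i hi'.le) (h (i + 1) hi') (h0 i hi'.le) (h0 (i + 1) hi')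
      (h1 i hi'.le) (h1 (i + 1) hi')]
    ring
  rw [e2, Finset.sum_add_distrib, ← Finset.mul_sum,
    Finset.sum_range_sub (fun i => (v i).re) n]
  unfold trap
  ring

/-- number of edges above a given abscissa -/
noncomputable def cnt (v : ℕ → ℂ) (n : ℕ) (x : ℝ) : ℝ≥0∞ :=
  ∑ i ∈ Finset.range n, (uIoc (v i).re (v (i + 1)).re).indicator (fun _ => 1) x

theorem measurable_cnt (v : ℕ → ℂ) (n : ℕ) : Measurable (cnt v n) := by
  unfold cnt
  exact Finset.measurable_fun_sum _ fun i _ =>
    measurable_const.indicator measurableSet_uIoc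

theorem cnt_ne_top (v : ℕ → ℂ) (n : ℕ) (x : ℝ) : cnt v n x ≠ ∞ := by
  classical
  unfold cnt
  apply ENNReal.sum_ne_top.mpr
  intro i _
  rw [indicator_apply]
  split_ifs <;> simp

theorem abs_X_le (v : ℕ → ℂ) (n : ℕ) (p : ℂ) : |X v n p| ≤ (cnt v n p.re).toReal + 2 := by
  classical
  unfold X cnt
  rw [ENNReal.toReal_sum]
  · have h1 : |∑ i ∈ Finset.range n, chi (v i) (v (i + 1)) p|
        ≤ ∑ i ∈ Finset.range n,
          ((uIoc (v i).re (v (i + 1)).re).indicator (fun _ => (1 : ℝ≥0∞)) p.re).toReal := by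
      refine (Finset.abs_sum_le_sum_abs _ _).trans (Finset.sum_le_sum fun i _ => ?_)
      by_cases hx : p.re ∈ uIoc (v i).re (v (i + 1)).re
      · rw [indicator_of_mem hx]
        simpa using abs_chi_le _ _ _
      · rw [indicator_of_notMem hx]
        rw [mem_uIoc] at hx
        push Not at hx
        have : chi (v i) (v (i + 1)) p = 0 := by
          unfold chi
          rw [if_neg (fun h => by linarith [hx.1 h.1, h.2.1]),
            if_neg (fun h => by linarith [hx.2 h.1, h.2.1])]
        simp [this]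
    have h2 := abs_rhoL_le (v 0) p
    have h3 := abs_rhoR_le (v n) p
    have h4 := abs_add_three (∑ i ∈ Finset.range n, chi (v i) (v (i + 1)) p) (rhoL (v 0) p)
      (rhoR (v n) p)
    linarith
  · intro i _
    rw [indicator_apply]
    split_ifs <;> simp

theorem lintegral_cnt_le {v : ℕ → ℂ} {n : ℕ} {L : ℝ}
    (h : ∀ i < n, |(v (i + 1)).re - (v i).re| ≤ L) :
    ∫⁻ x, cnt v n x ≤ ENNReal.ofReal (n * L) := by
  unfold cnt
  rw [lintegral_finsetSum _ fun i _ => measurable_const.indicator measurableSet_uIoc]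
  calc ∑ i ∈ Finset.range n, ∫⁻ x, (uIoc (v i).re (v (i + 1)).re).indicator (fun _ => 1) x
      ≤ ∑ i ∈ Finset.range n, ENNReal.ofReal L := by
        apply Finset.sum_le_sum
        intro i hi
        rw [lintegral_indicator measurableSet_uIoc]
        simp only [lintegral_const, MeasurableSet.univ, Measure.restrict_apply, univ_inter, one_mul]
        rw [uIoc, Real.volume_Ioc, max_sub_min_eq_abs]
        exact ENNReal.ofReal_le_ofReal (h i (Finset.mem_range.mp hi))
    _ = ENNReal.ofReal (n * L) := by
        rw [Finset.sum_const, Finset.card_range, nsmul_eq_mul,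
          ENNReal.ofReal_mul (by positivity), ENNReal.ofReal_natCast]

theorem sum_range_two_mul (e : ℕ → ℝ≥0∞) (n : ℕ) :
    ∑ i ∈ Finset.range (2 * n), e i = ∑ i ∈ Finset.range n, (e (2 * i) + e (2 * i + 1)) := by
  induction n with
  | zero => simp
  | succ n ih =>
    rw [show 2 * (n + 1) = 2 * n + 1 + 1 by ring, Finset.sum_range_succ, Finset.sum_range_succ,
      ih, Finset.sum_range_succ, add_assoc]

theorem cnt_refine {v w : ℕ → ℂ} {n : ℕ} (h : ∀ i, w (2 * i) = v i) (x : ℝ) :
    cnt v n x ≤ cnt w (2 * n) x := by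
  unfold cnt
  rw [sum_range_two_mul]
  apply Finset.sum_le_sum
  intro i _
  rw [← h i, ← h (i + 1), show 2 * (i + 1) = 2 * i + 1 + 1 by ring]
  by_cases hx : x ∈ uIoc (w (2 * i)).re (w (2 * i + 1 + 1)).re
  · rw [indicator_of_mem hx]
    have : x ∈ uIoc (w (2 * i)).re (w (2 * i + 1)).re
        ∨ x ∈ uIoc (w (2 * i + 1)).re (w (2 * i + 1 + 1)).re := by
      simp only [mem_uIoc] at hx ⊢
      rcases hx with hx | hx
      · rcases le_or_gt x (w (2 * i + 1)).re with h1 | h1
        · exact Or.inl (Or.inl ⟨hx.1, h1⟩)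
        · exact Or.inr (Or.inl ⟨h1, hx.2⟩)
      · rcases le_or_gt x (w (2 * i + 1)).re with h1 | h1
        · exact Or.inr (Or.inr ⟨hx.1, h1⟩)
        · exact Or.inl (Or.inr ⟨h1, hx.2⟩)
    rcases this with h1 | h1
    · rw [indicator_of_mem h1]
      exact le_self_add
    · rw [indicator_of_mem h1]
      exact le_add_self
  · rw [indicator_of_notMem hx]
    exact zero_le

/-- **The area theorem.** If the crossing numbers of the dyadic inscribed polygons of a Lipschitz
curve converge almost everywhere to the indicator of `U`, then the area of `U` is the limit of the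
trapezoid sums. -/
theorem area_eq {v : ℕ → ℕ → ℂ} {K M x0 x1 T : ℝ} {P Q : ℂ}
    (hstep : ∀ N, ∀ i < 2 ^ N, |(v N (i + 1)).re - (v N i).re| ≤ K / 2 ^ N)
    (href : ∀ N i, v (N + 1) (2 * i) = v N i)
    (h0 : ∀ N, v N 0 = P) (h1 : ∀ N, v N (2 ^ N) = Q)
    (hM : ∀ N, ∀ i ≤ 2 ^ N, |(v N i).im| ≤ M)
    (hx0 : ∀ N, ∀ i ≤ 2 ^ N, x0 ≤ (v N i).re) (hx1 : ∀ N, ∀ i ≤ 2 ^ N, (v N i).re ≤ x1)
    (F : ℝ × ℝ → ℝ)
    (hF : ∀ᵐ p ∂(box x0 x1 M), Tendsto (fun N => X (v N) (2 ^ N) (toC p)) atTop (𝓝 (F p)))
    (hT : Tendsto (fun N => trap (v N) (2 ^ N)) atTop (𝓝 T)) :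
    ∫ p, F p ∂(box x0 x1 M) = T + M * (Q.re - P.re)
      + (P.re - x0) * (P.im + M) + (x1 - Q.re) * (Q.im + M) := by
  set C : ℕ → ℝ → ℝ≥0∞ := fun N => cnt (v N) (2 ^ N) with hC
  have hmono : Monotone C := by
    apply monotone_nat_of_le_succ
    intro N x
    have := cnt_refine (v := v N) (w := v (N + 1)) (n := 2 ^ N) (href N) x
    simp only [hC]
    rw [pow_succ, mul_comm]
    exact this
  set n : ℝ → ℝ≥0∞ := fun x => ⨆ N, C N x with hn
  have hnm : Measurable n := Measurable.iSup fun N => measurable_cnt _ _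
  have hnint : ∫⁻ x, n x ≤ ENNReal.ofReal K := by
    simp only [hn]
    rw [lintegral_iSup (fun N => measurable_cnt _ _) hmono]
    apply iSup_le
    intro N
    refine (lintegral_cnt_le (hstep N)).trans (le_of_eq ?_)
    congr 1
    push_cast
    field_simp
  have hnfin : ∫⁻ x, n x ≠ ∞ := (hnint.trans_lt ENNReal.ofReal_lt_top).ne
  have hae : ∀ᵐ x, n x < ∞ := ae_lt_top hnm hnfin
  have hae' : ∀ᵐ p ∂(box x0 x1 M), n p.1 < ∞ := by
    unfold box
    exact (Measure.quasiMeasurePreserving_fst (μ := volume.restrict (Icc x0 x1))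
      (ν := volume.restrict (Icc (-M) M))).ae (ae_restrict_of_ae hae)
  have hint1 : Integrable (fun x => (n x).toReal) (volume.restrict (Icc x0 x1)) := by
    apply integrable_toReal_of_lintegral_ne_top hnm.aemeasurable
    exact ((lintegral_mono' Measure.restrict_le_self le_rfl).trans_lt
      (lt_top_iff_ne_top.mpr hnfin)).ne
  have hint2 : Integrable (fun p : ℝ × ℝ => (n p.1).toReal + 2) (box x0 x1 M) := by
    refine Integrable.add ?_ (integrable_const _)
    unfold box
    exact hint1.comp_fst _
  have hdct := tendsto_integral_of_dominated_convergence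
    (F := fun N (p : ℝ × ℝ) => X (v N) (2 ^ N) (toC p)) (f := F) (μ := box x0 x1 M)
    (fun p : ℝ × ℝ => (n p.1).toReal + 2)
    (fun N => (measurable_X _ _).aestronglyMeasurable) hint2
    (fun N => by
      filter_upwards [hae'] with p hp
      rw [Real.norm_eq_abs]
      refine (abs_X_le _ _ _).trans ?_
      have : (cnt (v N) (2 ^ N) (toC p).re).toReal ≤ (n p.1).toReal :=
        ENNReal.toReal_mono hp.ne (le_iSup (fun N => C N p.1) N)
      linarith) hF
  refine tendsto_nhds_unique hdct ?_
  have e : ∀ N, ∫ p, X (v N) (2 ^ N) (toC p) ∂(box x0 x1 M)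
      = trap (v N) (2 ^ N) + M * (Q.re - P.re)
      + (P.re - x0) * (P.im + M) + (x1 - Q.re) * (Q.im + M) := by
    intro N
    rw [integral_X (hM N) (hx0 N) (hx1 N), h0, h1]
  simp only [e]
  exact ((hT.add_const _).add_const _).add_const _

end Pool.Agent.LipTrap
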