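import Pool.Agent.Lib.MP_2fd4e2_co.Lip.Area

/-!
Null sets, convergence of crossing numbers, trapezoid sums of Lipschitz functions.
-/

set_option autoImplicit false

namespace Pool.Agent.LipTrap

open Complex Set Filter Topology MeasureTheory
open scoped ENNReal NNReal

theorem null_range {c : ℝ → ℂ} {L : ℝ} (hc : ∀ s t, ‖c s - c t‖ ≤ L * |s - t|) :
    (volume : Measure (ℝ × ℝ)) {p | toC p ∈ range c} = 0 := by
  set e : ℝ → ℝ × ℝ := fun t => ((c t).re, (c t).im) with he
  have hL : LipschitzWith (Real.toNNReal L) e := by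
    apply LipschitzWith.of_dist_le_mul
    intro s t
    have h1 : ‖c s - c t‖ ≤ (Real.toNNReal L : ℝ) * dist s t := by
      rw [Real.dist_eq]
      exact (hc s t).trans (mul_le_mul_of_nonneg_right (Real.le_coe_toNNReal L) (abs_nonneg _))
    rw [Prod.dist_eq]
    apply max_le
    · refine le_trans ?_ h1
      rw [Real.dist_eq]
      have := Complex.abs_re_le_norm (c s - c t)
      simpa [he] using this
    · refine le_trans ?_ h1
      rw [Real.dist_eq]
      have := Complex.abs_im_le_norm (c s - c t)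
      simpa [he] using this
  have hset : {p : ℝ × ℝ | toC p ∈ range c} ⊆ ⋃ n : ℕ, e '' Icc (-(n : ℝ)) n := by
    rintro p ⟨t, ht⟩
    obtain ⟨n, hn⟩ := exists_nat_ge |t|
    rw [abs_le] at hn
    refine mem_iUnion.mpr ⟨n, t, ⟨hn.1, hn.2⟩, ?_⟩
    simp only [he, ht, toC]
  refine measure_mono_null hset (measure_iUnion_null fun n => ?_)
  rw [← hausdorffMeasure_prod_real]
  rcases Measure.hausdorffMeasure_zero_or_top (show (1 : ℝ) < 2 by norm_num)
    (e '' Icc (-(n : ℝ)) n) with h | h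
  · exact h
  · exfalso
    have h1 := (hL.lipschitzOnWith (s := Icc (-(n : ℝ)) n)).hausdorffMeasure_image_le
      (d := 1) zero_le_one
    rw [h, hausdorffMeasure_real, Real.volume_Icc] at h1
    have h2 : ((Real.toNNReal L : ℝ≥0∞)) ^ (1 : ℝ) * ENNReal.ofReal ((n : ℝ) - -n) < ∞ :=
      ENNReal.mul_lt_top (by simp) ENNReal.ofReal_lt_top
    exact absurd (h1.trans_lt h2) (lt_irrefl _)

theorem box_ae {c : ℝ → ℂ} {L : ℝ} (hc : ∀ s t, ‖c s - c t‖ ≤ L * |s - t|) (x0 x1 M : ℝ) :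
    ∀ᵐ p ∂(box x0 x1 M), toC p ∉ range c := by
  unfold box
  rw [Measure.prod_restrict]
  apply ae_restrict_of_ae
  rw [ae_iff, ← Measure.volume_eq_prod]
  simpa using null_range hc

/-- the dyadic points of a curve parametrised by `[a, b]` -/
noncomputable def dy (c : ℝ → ℂ) (a b : ℝ) (N i : ℕ) : ℂ := c (a + (b - a) * (i / 2 ^ N))

theorem track_near {c : ℝ → ℂ} {L a b : ℝ} (hab : a < b)
    (hc : ∀ s t, ‖c s - c t‖ ≤ L * |s - t|)
    (hl : ∀ t ≤ a, c t = ⟨t, (c a).im⟩) (hr : ∀ t, b ≤ t → c t = ⟨t, (c b).im⟩) (hL : 0 ≤ L)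
    {N : ℕ} {p : ℂ} (hp : p ∈ track (dy c a b N) (2 ^ N)) :
    ∃ t, ‖p - c t‖ ≤ L * (b - a) / 2 ^ N := by
  have hnn : 0 ≤ L * (b - a) / 2 ^ N := by
    have : 0 < b - a := by linarith
    positivity
  have e0 : dy c a b N 0 = c a := by unfold dy; simp
  have e1 : dy c a b N (2 ^ N) = c b := by
    unfold dy
    push_cast
    rw [div_self (by positivity)]
    congr 1; ring
  rcases hp with ⟨i, hi, hs⟩ | ⟨h1, h2⟩ | ⟨h1, h2⟩
  · refine ⟨a + (b - a) * (i / 2 ^ N), ?_⟩
    have h1 := norm_sub_le_of_mem_segment hs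
    change ‖p - dy c a b N i‖ ≤ _
    refine h1.trans ?_
    unfold dy
    refine (hc _ _).trans ?_
    have h2 : a + (b - a) * (((i + 1 : ℕ) : ℝ) / 2 ^ N) - (a + (b - a) * ((i : ℝ) / 2 ^ N))
        = (b - a) / 2 ^ N := by push_cast; ring
    rw [h2, abs_of_nonneg (by have : 0 < b - a := by linarith
                              positivity), mul_div_assoc]
  · refine ⟨p.re, ?_⟩
    rw [e0] at h1 h2
    have h3 : (c a).re = a := by rw [hl a le_rfl]
    rw [h3] at h2
    rw [hl _ h2, ← h1]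
    simpa using hnn
  · refine ⟨p.re, ?_⟩
    rw [e1] at h1 h2
    have h3 : (c b).re = b := by rw [hr b le_rfl]
    rw [h3] at h2
    rw [hr _ h2, ← h1]
    simpa using hnn

theorem X_eventually {c : ℝ → ℂ} {L a b : ℝ} (hab : a < b)
    (hc : ∀ s t, ‖c s - c t‖ ≤ L * |s - t|)
    (hl : ∀ t ≤ a, c t = ⟨t, (c a).im⟩) (hr : ∀ t, b ≤ t → c t = ⟨t, (c b).im⟩) (hL : 0 ≤ L)
    (hclosed : IsClosed (range c)) {K : Set ℂ} (hK : IsCompact K) (hK' : IsPreconnected K)
    (hd : ∀ p ∈ K, p ∉ range c) {p p0 : ℂ} (hp : p ∈ K) (hp0 : p0 ∈ K)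
    (hp0' : ∀ t ∈ Icc a b, p0.re ≤ (c t).re) :
    ∀ᶠ N in atTop, X (dy c a b N) (2 ^ N) p = if p0.im < (c a).im then 1 else 0 := by
  obtain ⟨δ, hδ, hth⟩ := hK.exists_thickening_subset_open hclosed.isOpen_compl
    (show K ⊆ (range c)ᶜ from hd)
  have hlim : Tendsto (fun N : ℕ => L * (b - a) / 2 ^ N) atTop (𝓝 0) := by
    have h1 : Tendsto (fun N : ℕ => (2 : ℝ) ^ N) atTop atTop :=
      tendsto_pow_atTop_atTop_of_one_lt (by norm_num)
    exact tendsto_const_nhds.div_atTop h1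
  filter_upwards [hlim.eventually (gt_mem_nhds hδ)] with N hN
  have hdis : ∀ z ∈ K, z ∉ track (dy c a b N) (2 ^ N) := by
    intro z hz hz'
    obtain ⟨t, ht⟩ := track_near hab hc hl hr hL hz'
    have h2 : c t ∈ Metric.thickening δ K := by
      rw [Metric.mem_thickening_iff]
      refine ⟨z, hz, ?_⟩
      rw [dist_comm, dist_eq_norm]
      linarith
    exact hth h2 ⟨t, rfl⟩
  rw [X_const hK' hdis hp hp0, X_left]
  · unfold dy; simp
  · intro i hi
    unfold dy
    apply hp0'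
    have hba : 0 < b - a := by linarith
    have h2 : (i : ℝ) / 2 ^ N ≤ 1 := by
      rw [div_le_one (by positivity)]
      exact_mod_cast hi
    have h3 : 0 ≤ (i : ℝ) / 2 ^ N := by positivity
    constructor
    · nlinarith
    · nlinarith

theorem trap_step {F : ℝ → ℝ} {A : ℝ} (hF : ∀ x y, |F x - F y| ≤ A * |x - y|) (hA : 0 ≤ A)
    (hcont : Continuous F) (u u' : ℝ) :
    |(u' - u) * ((F u + F u') / 2) - ∫ x in u..u', F x| ≤ A * |u' - u| ^ 2 := by
  have h1 : (u' - u) * ((F u + F u') / 2) - ∫ x in u..u', F x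
      = ∫ x in u..u', ((F u + F u') / 2 - F x) := by
    rw [intervalIntegral.integral_sub (by simp) (hcont.intervalIntegrable _ _)]
    simp
    ring
  rw [h1, ← Real.norm_eq_abs]
  have h2 : ∀ x ∈ uIoc u u', ‖(F u + F u') / 2 - F x‖ ≤ A * |u' - u| := by
    intro x hx
    have h3 := hF u x
    have h4 := hF u' x
    have h5 : |u - x| ≤ |u' - u| := by
      rw [abs_le]
      rw [mem_uIoc] at hx
      rcases hx with hx | hx
      · rw [abs_of_nonneg (by linarith [hx.1, hx.2])]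
        constructor <;> linarith [hx.1, hx.2]
      · rw [abs_of_nonpos (by linarith [hx.1, hx.2])]
        constructor <;> linarith [hx.1, hx.2]
    have h6 : |u' - x| ≤ |u' - u| := by
      rw [abs_le]
      rw [mem_uIoc] at hx
      rcases hx with hx | hx
      · rw [abs_of_nonneg (by linarith [hx.1, hx.2])]
        constructor <;> linarith [hx.1, hx.2]
      · rw [abs_of_nonpos (by linarith [hx.1, hx.2])]
        constructor <;> linarith [hx.1, hx.2]
    have h7 := h3.trans (mul_le_mul_of_nonneg_left h5 hA)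
    have h8 := h4.trans (mul_le_mul_of_nonneg_left h6 hA)
    rw [abs_le] at h7 h8
    rw [Real.norm_eq_abs, abs_le]
    constructor <;> linarith [h7.1, h7.2, h8.1, h8.2]
  have h3 := intervalIntegral.norm_integral_le_of_norm_le_const h2
  calc _ ≤ A * |u' - u| * |u' - u| := h3
    _ = _ := by ring

theorem trap_tendsto {F : ℝ → ℝ} {A K a b : ℝ} (hF : ∀ x y, |F x - F y| ≤ A * |x - y|)
    (hA : 0 ≤ A) (hcont : Continuous F) (u : ℕ → ℕ → ℝ)
    (hstep : ∀ N, ∀ i < 2 ^ N, |u N (i + 1) - u N i| ≤ K / 2 ^ N)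
    (h0 : ∀ N, u N 0 = a) (h1 : ∀ N, u N (2 ^ N) = b) :
    Tendsto (fun N => ∑ i ∈ Finset.range (2 ^ N),
      (u N (i + 1) - u N i) * ((F (u N i) + F (u N (i + 1))) / 2)) atTop
      (𝓝 (∫ x in a..b, F x)) := by
  have hbound : ∀ N, |∑ i ∈ Finset.range (2 ^ N),
      (u N (i + 1) - u N i) * ((F (u N i) + F (u N (i + 1))) / 2) - ∫ x in a..b, F x|
      ≤ A * K ^ 2 / 2 ^ N := by
    intro N
    have e1 : ∫ x in a..b, F x = ∑ i ∈ Finset.range (2 ^ N), ∫ x in u N i..u N (i + 1), F x := by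
      rw [intervalIntegral.sum_integral_adjacent_intervals
        (fun k _ => hcont.intervalIntegrable _ _), h0, h1]
    rw [e1, ← Finset.sum_sub_distrib]
    refine (Finset.abs_sum_le_sum_abs _ _).trans ?_
    have h2 : ∀ i ∈ Finset.range (2 ^ N), |(u N (i + 1) - u N i) *
        ((F (u N i) + F (u N (i + 1))) / 2) - ∫ x in u N i..u N (i + 1), F x|
        ≤ A * (K / 2 ^ N) ^ 2 := by
      intro i hi
      refine (trap_step hF hA hcont _ _).trans ?_
      apply mul_le_mul_of_nonneg_left _ hA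
      exact pow_le_pow_left₀ (abs_nonneg _) (hstep N i (Finset.mem_range.mp hi)) 2
    refine (Finset.sum_le_sum h2).trans (le_of_eq ?_)
    rw [Finset.sum_const, Finset.card_range, nsmul_eq_mul]
    push_cast
    field_simp
  rw [tendsto_iff_norm_sub_tendsto_zero]
  have hlim : Tendsto (fun N : ℕ => A * K ^ 2 / 2 ^ N) atTop (𝓝 0) := by
    have h1 : Tendsto (fun N : ℕ => (2 : ℝ) ^ N) atTop atTop :=
      tendsto_pow_atTop_atTop_of_one_lt (by norm_num)
    exact tendsto_const_nhds.div_atTop h1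
  exact squeeze_zero (fun N => norm_nonneg _) (fun N => by
    rw [Real.norm_eq_abs]; exact hbound N) hlim

end Pool.Agent.LipTrap
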