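import Mathlib

/-!
The homeomorphism of the plane which sends the first vertex of a trapezoid to the third one, the
second vertex being on the graph of `f` and the fourth one on the graph of `g`.
-/

set_option autoImplicit false

namespace Pool.Agent.LipTrap

open Complex Set Filter Topology

/-- being Lipschitz, for real functions on the plane -/
def Lip (φ : ℂ → ℝ) : Prop := ∃ C, ∀ w w', |φ w - φ w'| ≤ C * ‖w - w'‖

theorem Lip.add {φ ψ : ℂ → ℝ} (h1 : Lip φ) (h2 : Lip ψ) : Lip (fun w => φ w + ψ w) := by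
  obtain ⟨C, hC⟩ := h1
  obtain ⟨D, hD⟩ := h2
  refine ⟨C + D, fun w w' => ?_⟩
  have e : φ w + ψ w - (φ w' + ψ w') = (φ w - φ w') + (ψ w - ψ w') := by ring
  rw [e]
  refine (abs_add_le _ _).trans ?_
  have := hC w w'
  have := hD w w'
  nlinarith

theorem Lip.sub {φ ψ : ℂ → ℝ} (h1 : Lip φ) (h2 : Lip ψ) : Lip (fun w => φ w - ψ w) := by
  obtain ⟨C, hC⟩ := h1
  obtain ⟨D, hD⟩ := h2
  refine ⟨C + D, fun w w' => ?_⟩
  have e : φ w - ψ w - (φ w' - ψ w') = (φ w - φ w') - (ψ w - ψ w') := by ring
  rw [e]
  refine (abs_sub _ _).trans ?_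
  have := hC w w'
  have := hD w w'
  nlinarith

theorem Lip.mul {φ : ℂ → ℝ} (c : ℝ) (h1 : Lip φ) : Lip (fun w => c * φ w) := by
  obtain ⟨C, hC⟩ := h1
  refine ⟨|c| * C, fun w w' => ?_⟩
  rw [← mul_sub, abs_mul, mul_assoc]
  exact mul_le_mul_of_nonneg_left (hC w w') (abs_nonneg _)

theorem Lip.comp {φ : ℂ → ℝ} {f : ℝ → ℝ} {A : ℝ} (hA : 0 ≤ A)
    (hf : ∀ x y, |f x - f y| ≤ A * |x - y|) (h1 : Lip φ) : Lip (fun w => f (φ w)) := by
  obtain ⟨C, hC⟩ := h1
  refine ⟨A * C, fun w w' => ?_⟩
  refine (hf _ _).trans ?_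
  rw [mul_assoc]
  exact mul_le_mul_of_nonneg_left (hC w w') hA

theorem Lip.re : Lip (fun w => w.re) :=
  ⟨1, fun w w' => by rw [one_mul, ← Complex.sub_re]; exact Complex.abs_re_le_norm _⟩

theorem Lip.im : Lip (fun w => w.im) :=
  ⟨1, fun w w' => by rw [one_mul, ← Complex.sub_im]; exact Complex.abs_im_le_norm _⟩

theorem Lip.continuous {φ : ℂ → ℝ} (h : Lip φ) : Continuous φ := by
  obtain ⟨C, hC⟩ := h
  have hC' : ∀ w w', dist (φ w) (φ w') ≤ (Real.toNNReal C : ℝ) * dist w w' := by
    intro w w'
    rw [Real.dist_eq, dist_eq_norm]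
    exact (hC w w').trans (mul_le_mul_of_nonneg_right (Real.le_coe_toNNReal C) (norm_nonneg _))
  exact (LipschitzWith.of_dist_le_mul hC').continuous

/-- implicit functions for monotone Lipschitz equations -/
theorem implicit {D : ℂ → ℝ → ℝ} {μ : ℝ} (hμ : 0 < μ) (hcont : ∀ w, Continuous (D w))
    (hmono : ∀ w u u', u ≤ u' → μ * (u' - u) ≤ D w u' - D w u)
    {C : ℝ} (hLip : ∀ w w' u, |D w u - D w' u| ≤ C * ‖w - w'‖) :
    ∃ U : ℂ → ℝ, (∀ w, D w (U w) = 0) ∧ (∀ w u, D w u = 0 → u = U w) ∧ Lip U := by
  have hex : ∀ w, ∃ u, D w u = 0 := by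
    intro w
    have h1 := hmono w (-(|D w 0| / μ)) 0 (by
      have : 0 ≤ |D w 0| / μ := by positivity
      linarith)
    have h2 := hmono w 0 (|D w 0| / μ) (by positivity)
    have h3 : μ * (|D w 0| / μ) = |D w 0| := by field_simp
    have h4 := neg_abs_le (D w 0)
    have h5 := le_abs_self (D w 0)
    have h6 : μ * (0 - -(|D w 0| / μ)) = |D w 0| := by rw [zero_sub, neg_neg, h3]
    have h7 : μ * (|D w 0| / μ - 0) = |D w 0| := by rw [sub_zero, h3]
    rw [h6] at h1
    rw [h7] at h2
    exact mem_range_of_exists_le_of_exists_ge (hcont w)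
      ⟨-(|D w 0| / μ), by linarith⟩ ⟨|D w 0| / μ, by linarith⟩
  have huniq : ∀ w u u', D w u = 0 → D w u' = 0 → u = u' := by
    intro w u u' h1 h2
    rcases le_total u u' with h | h
    · have := hmono w u u' h
      rw [h1, h2] at this
      nlinarith
    · have := hmono w u' u h
      rw [h1, h2] at this
      nlinarith
  choose U hU using hex
  refine ⟨U, hU, fun w u h => huniq w u (U w) h (hU w), C / μ, fun w w' => ?_⟩
  have h1 := hLip w w' (U w)
  rw [hU w, zero_sub, abs_neg] at h1
  have h2 : μ * |U w - U w'| ≤ |D w' (U w)| := by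
    rcases le_total (U w) (U w') with h | h
    · have := hmono w' (U w) (U w') h
      rw [hU w'] at this
      rw [abs_of_nonpos (by linarith)]
      have h3 := neg_abs_le (D w' (U w))
      linarith
    · have := hmono w' (U w') (U w) h
      rw [hU w'] at this
      rw [abs_of_nonneg (by linarith)]
      have h3 := le_abs_self (D w' (U w))
      linarith
  rw [div_mul_eq_mul_div, le_div_iff₀ hμ]
  linarith

/-- the data -/
structure Hyp (f g : ℝ → ℝ) (A B p q l : ℝ) : Prop where
  hA : 0 ≤ A
  hB : 0 ≤ B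
  hp : 0 ≤ p
  hq : 0 < q
  hl : l = 1 - 2 * p
  hl0 : 0 < l
  hf : ∀ x y, |f x - f y| ≤ A * |x - y|
  hg : ∀ x y, |g x - g y| ≤ B * |x - y|
  hC : p * (A + B) < q * (1 - A * B)

variable {f g : ℝ → ℝ} {A B p q l : ℝ}

theorem cont_of_lip {f : ℝ → ℝ} {A : ℝ} (hf : ∀ x y, |f x - f y| ≤ A * |x - y|) :
    Continuous f := by
  have hC' : ∀ w w', dist (f w) (f w') ≤ (Real.toNNReal A : ℝ) * dist w w' := by
    intro w w'
    rw [Real.dist_eq, Real.dist_eq]
    exact (hf w w').trans (mul_le_mul_of_nonneg_right (Real.le_coe_toNNReal A) (abs_nonneg _))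
  exact (LipschitzWith.of_dist_le_mul hC').continuous

/-- coordinates of the fourth vertex -/
def z4re (f : ℝ → ℝ) (p q : ℝ) (w : ℂ) (u : ℝ) : ℝ :=
  w.re + p * (u - w.re) - q * (f u - w.im)

/-- coordinates of the fourth vertex -/
def z4im (f : ℝ → ℝ) (p q : ℝ) (w : ℂ) (u : ℝ) : ℝ :=
  w.im + q * (u - w.re) + p * (f u - w.im)

theorem slope_re (H : Hyp f g A B p q l) {u u' : ℝ} (h : u ≤ u') :
    |p * (u' - u) - q * (f u' - f u)| ≤ (p + q * A) * (u' - u) := by
  have h1 := H.hf u' u
  rw [abs_of_nonneg (show 0 ≤ u' - u by linarith)] at h1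
  rw [abs_le] at h1
  rw [abs_le]
  have hq := H.hq
  have hp := H.hp
  have hA := H.hA
  have e1 : 0 ≤ p * (u' - u) := mul_nonneg hp (by linarith)
  constructor
  · nlinarith [mul_le_mul_of_nonneg_left h1.2 hq.le]
  · nlinarith [mul_le_mul_of_nonneg_left h1.1 hq.le]

theorem slope_im (H : Hyp f g A B p q l) {u u' : ℝ} (h : u ≤ u') :
    (q - p * A) * (u' - u) ≤ q * (u' - u) + p * (f u' - f u) := by
  have h1 := H.hf u' u
  rw [abs_of_nonneg (show 0 ≤ u' - u by linarith)] at h1
  rw [abs_le] at h1
  have h5 := mul_le_mul_of_nonneg_left h1.1 H.hp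
  nlinarith

theorem exists_homeo (H : Hyp f g A B p q l) :
    ∃ (G F : ℂ → ℂ) (U : ℂ → ℝ), Lip (fun w => (G w).re) ∧ Lip (fun w => (G w).im) ∧
      Continuous F ∧ (∀ w, F (G w) = w) ∧ (∀ w, G (F w) = w) ∧ Lip U ∧
      (∀ w, z4im f p q w (U w) = g (z4re f p q w (U w))) ∧
      (∀ w, (G w).re = z4re f p q w (U w) + l * (U w - w.re)) ∧
      (∀ w, (G w).im = z4im f p q w (U w) + l * (f (U w) - w.im)) ∧
      (∀ w u, z4im f p q w u = g (z4re f p q w u) → u = U w) ∧
      (∀ w u, z4im f p q w u < g (z4re f p q w u) → u < U w) := by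
  set μ := q * (1 - A * B) - p * (A + B) with hμ
  have hμ0 : 0 < μ := by have := H.hC; linarith
  have hfc := cont_of_lip H.hf
  have hgc := cont_of_lip H.hg
  have hq := H.hq
  have hp := H.hp
  have hl0 := H.hl0
  have hl := H.hl
  -- the map G
  set D : ℂ → ℝ → ℝ := fun w u => z4im f p q w u - g (z4re f p q w u) with hD
  have hDmono : ∀ w u u', u ≤ u' → μ * (u' - u) ≤ D w u' - D w u := by
    intro w u u' h
    have h1 := slope_im H h
    have h3 := mul_le_mul_of_nonneg_left (slope_re H h) H.hB
    have e : z4re f p q w u' - z4re f p q w u = p * (u' - u) - q * (f u' - f u) := by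
      unfold z4re; ring
    have h4 := H.hg (z4re f p q w u') (z4re f p q w u)
    rw [e] at h4
    have h2 := le_abs_self (g (z4re f p q w u') - g (z4re f p q w u))
    have e2 : D w u' - D w u = (q * (u' - u) + p * (f u' - f u))
        - (g (z4re f p q w u') - g (z4re f p q w u)) := by
      simp only [hD]; unfold z4im; ring
    rw [e2, hμ]
    nlinarith
  have hDcont : ∀ w, Continuous (D w) := by
    intro w
    simp only [hD]
    unfold z4re z4im
    fun_prop
  have hDlip : ∀ w w' u, |D w u - D w' u|
      ≤ ((1 + p + q) + B * (1 + p + q)) * ‖w - w'‖ := by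
    intro w w' u
    have hre : |w.re - w'.re| ≤ ‖w - w'‖ := by
      rw [← Complex.sub_re]; exact Complex.abs_re_le_norm _
    have him : |w.im - w'.im| ≤ ‖w - w'‖ := by
      rw [← Complex.sub_im]; exact Complex.abs_im_le_norm _
    rw [abs_le] at hre him
    have e1 : |z4im f p q w u - z4im f p q w' u| ≤ (1 + p + q) * ‖w - w'‖ := by
      have : z4im f p q w u - z4im f p q w' u
          = (w.im - w'.im) - q * (w.re - w'.re) - p * (w.im - w'.im) := by
        unfold z4im; ring
      rw [this, abs_le]
      constructor <;> nlinarith [mul_le_mul_of_nonneg_left hre.1 hq.le,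
        mul_le_mul_of_nonneg_left hre.2 hq.le, mul_le_mul_of_nonneg_left him.1 hp,
        mul_le_mul_of_nonneg_left him.2 hp]
    have e2 : |z4re f p q w u - z4re f p q w' u| ≤ (1 + p + q) * ‖w - w'‖ := by
      have : z4re f p q w u - z4re f p q w' u
          = (w.re - w'.re) - p * (w.re - w'.re) + q * (w.im - w'.im) := by
        unfold z4re; ring
      rw [this, abs_le]
      constructor <;> nlinarith [mul_le_mul_of_nonneg_left hre.1 hp,
        mul_le_mul_of_nonneg_left hre.2 hp, mul_le_mul_of_nonneg_left him.1 hq.le,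
        mul_le_mul_of_nonneg_left him.2 hq.le]
    have e3 := (H.hg (z4re f p q w u) (z4re f p q w' u)).trans
      (mul_le_mul_of_nonneg_left e2 H.hB)
    have e4 : D w u - D w' u = (z4im f p q w u - z4im f p q w' u)
        - (g (z4re f p q w u) - g (z4re f p q w' u)) := by simp only [hD]; ring
    rw [e4]
    refine (abs_sub _ _).trans ?_
    nlinarith
  obtain ⟨U, hU1, hU2, hU3⟩ := implicit hμ0 hDcont hDmono hDlip
  -- the inverse map
  set n := p ^ 2 + q ^ 2 with hn
  have hn0 : 0 < n := by positivity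
  -- coordinates of the vector `d`
  set dr : ℂ → ℝ → ℝ := fun w u => (p * (u - w.re) - q * (f u - w.im)) / n with hdr
  set di : ℂ → ℝ → ℝ := fun w u => (q * (u - w.re) + p * (f u - w.im)) / n with hdi
  set E : ℂ → ℝ → ℝ := fun w u => g (w.re - l * dr w u) - (w.im - l * di w u) with hE
  have hln : 0 < l / n := by positivity
  have hEmono : ∀ w u u', u ≤ u' → (l / n * μ) * (u' - u) ≤ E w u' - E w u := by
    intro w u u' h
    have h1 := slope_im H h
    have h3 := mul_le_mul_of_nonneg_left (slope_re H h) H.hB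
    have h4 := H.hg (w.re - l * dr w u') (w.re - l * dr w u)
    have e : w.re - l * dr w u' - (w.re - l * dr w u)
        = -(l / n * (p * (u' - u) - q * (f u' - f u))) := by
      simp only [hdr]; field_simp; ring
    rw [e, abs_neg, abs_mul, abs_of_pos hln] at h4
    have e2 : E w u' - E w u = l / n * (q * (u' - u) + p * (f u' - f u))
        + (g (w.re - l * dr w u') - g (w.re - l * dr w u)) := by
      simp only [hE, hdi]; field_simp; ring
    have h5 := neg_abs_le (g (w.re - l * dr w u') - g (w.re - l * dr w u))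
    rw [e2, hμ]
    have h6 : B * (l / n * |p * (u' - u) - q * (f u' - f u)|)
        ≤ l / n * (B * ((p + q * A) * (u' - u))) := by
      calc _ = l / n * (B * |p * (u' - u) - q * (f u' - f u)|) := by ring
        _ ≤ _ := mul_le_mul_of_nonneg_left h3 hln.le
    have h7 := mul_le_mul_of_nonneg_left h1 hln.le
    have h8 : l / n * (q * (1 - A * B) - p * (A + B)) * (u' - u)
        = l / n * ((q - p * A) * (u' - u)) - l / n * (B * ((p + q * A) * (u' - u))) := by ring
    rw [h8]
    linarith
  have hEcont : ∀ w, Continuous (E w) := by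
    intro w
    simp only [hE, hdr, hdi]
    fun_prop
  have hElip : ∀ w w' u, |E w u - E w' u|
      ≤ ((1 + l / n * (p + q)) + B * (1 + l / n * (p + q))) * ‖w - w'‖ := by
    intro w w' u
    have hre : |w.re - w'.re| ≤ ‖w - w'‖ := by
      rw [← Complex.sub_re]; exact Complex.abs_re_le_norm _
    have him : |w.im - w'.im| ≤ ‖w - w'‖ := by
      rw [← Complex.sub_im]; exact Complex.abs_im_le_norm _
    rw [abs_le] at hre him
    have e1 : |w.re - l * dr w u - (w'.re - l * dr w' u)|
        ≤ (1 + l / n * (p + q)) * ‖w - w'‖ := by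
      have : w.re - l * dr w u - (w'.re - l * dr w' u)
          = (w.re - w'.re) + l / n * (p * (w.re - w'.re) - q * (w.im - w'.im)) := by
        simp only [hdr]; field_simp; ring
      have h9 : |p * (w.re - w'.re) - q * (w.im - w'.im)| ≤ (p + q) * ‖w - w'‖ := by
        rw [abs_le]
        constructor <;> nlinarith [mul_le_mul_of_nonneg_left hre.1 hp,
          mul_le_mul_of_nonneg_left hre.2 hp, mul_le_mul_of_nonneg_left him.1 hq.le,
          mul_le_mul_of_nonneg_left him.2 hq.le]
      rw [this]
      refine (abs_add_le _ _).trans ?_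
      rw [abs_mul, abs_of_pos hln]
      have h10 := mul_le_mul_of_nonneg_left h9 hln.le
      have h11 : |w.re - w'.re| ≤ ‖w - w'‖ := abs_le.mpr hre
      nlinarith
    have e2 : |w.im - l * di w u - (w'.im - l * di w' u)|
        ≤ (1 + l / n * (p + q)) * ‖w - w'‖ := by
      have : w.im - l * di w u - (w'.im - l * di w' u)
          = (w.im - w'.im) + l / n * (q * (w.re - w'.re) + p * (w.im - w'.im)) := by
        simp only [hdi]; field_simp; ring
      have h9 : |q * (w.re - w'.re) + p * (w.im - w'.im)| ≤ (p + q) * ‖w - w'‖ := by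
        rw [abs_le]
        constructor <;> nlinarith [mul_le_mul_of_nonneg_left hre.1 hq.le,
          mul_le_mul_of_nonneg_left hre.2 hq.le, mul_le_mul_of_nonneg_left him.1 hp,
          mul_le_mul_of_nonneg_left him.2 hp]
      rw [this]
      refine (abs_add_le _ _).trans ?_
      rw [abs_mul, abs_of_pos hln]
      have h10 := mul_le_mul_of_nonneg_left h9 hln.le
      have h11 : |w.im - w'.im| ≤ ‖w - w'‖ := abs_le.mpr him
      nlinarith
    have e3 := (H.hg (w.re - l * dr w u) (w'.re - l * dr w' u)).trans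
      (mul_le_mul_of_nonneg_left e1 H.hB)
    have e4 : E w u - E w' u = (g (w.re - l * dr w u) - g (w'.re - l * dr w' u))
        - (w.im - l * di w u - (w'.im - l * di w' u)) := by simp only [hE]; ring
    rw [e4]
    refine (abs_sub _ _).trans ?_
    linarith
  obtain ⟨V, hV1, hV2, hV3⟩ := implicit (mul_pos hln hμ0) hEcont hEmono hElip
  -- inversion formulas
  have hX : ∀ w u, p * dr w u + q * di w u = u - w.re := by
    intro w u; simp only [hdr, hdi]; field_simp; rw [hn]; ring
  have hY : ∀ w u, -q * dr w u + p * di w u = f u - w.im := by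
    intro w u; simp only [hdr, hdi]; field_simp; rw [hn]; ring
  have hUlip := hU3
  have hVlip := hV3
  have hfU : Lip (fun w => f (U w)) := Lip.comp H.hA H.hf hU3
  have hfV : Lip (fun w => f (V w)) := Lip.comp H.hA H.hf hV3
  set G : ℂ → ℂ := fun w => ⟨z4re f p q w (U w) + l * (U w - w.re),
    z4im f p q w (U w) + l * (f (U w) - w.im)⟩ with hG
  set F : ℂ → ℂ := fun w => ⟨V w - dr w (V w), f (V w) - di w (V w)⟩ with hF
  refine ⟨G, F, U, ?_, ?_, ?_, ?_, ?_, hU3, ?_, fun w => rfl, fun w => rfl, ?_, ?_⟩
  · simp only [hG]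
    unfold z4re
    exact ((Lip.re.add ((hU3.sub Lip.re).mul p)).sub ((hfU.sub Lip.im).mul q)).add
      ((hU3.sub Lip.re).mul l)
  · simp only [hG]
    unfold z4im
    exact ((Lip.im.add ((hU3.sub Lip.re).mul q)).add ((hfU.sub Lip.im).mul p)).add
      ((hfU.sub Lip.im).mul l)
  · have c1 := hV3.continuous
    have c2 := hfV.continuous
    have c3 : Continuous (fun w => V w - dr w (V w)) := by
      simp only [hdr]
      fun_prop
    have c4 : Continuous (fun w => f (V w) - di w (V w)) := by
      simp only [hdi]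
      fun_prop
    have e : F = fun w => ((V w - dr w (V w) : ℝ) : ℂ) + ((f (V w) - di w (V w) : ℝ) : ℂ) * I := by
      funext w
      apply Complex.ext <;> simp [hF]
    rw [e]
    fun_prop
  · intro w
    set u := U w with hu
    have h1 : dr (G w) u = u - w.re := by
      simp only [hdr, hG]
      rw [← hu]
      unfold z4re z4im
      rw [hn, hl]
      field_simp
      ring
    have h2 : di (G w) u = f u - w.im := by
      simp only [hdi, hG]
      rw [← hu]
      unfold z4re z4im
      rw [hn, hl]
      field_simp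
      ring
    have h3 : E (G w) u = 0 := by
      simp only [hE]
      rw [h1, h2]
      have h4 : (G w).re - l * (u - w.re) = z4re f p q w u := by simp only [hG]; ring
      have h5 : (G w).im - l * (f u - w.im) = z4im f p q w u := by simp only [hG]; ring
      rw [h4, h5]
      have := hU1 w
      simp only [hD] at this
      linarith
    have h4 := hV2 _ _ h3
    simp only [hF]
    rw [← h4, h1, h2]
    apply Complex.ext <;> simp
  · intro w
    set u := V w with hu
    set w1 := F w with hw1
    have h1 : u - w1.re = dr w u := by simp only [hw1, hF]; ring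
    have h2 : f u - w1.im = di w u := by simp only [hw1, hF]; ring
    have hX' := hX w u
    have hY' := hY w u
    have h3 : z4re f p q w1 u = w.re - l * dr w u := by
      unfold z4re
      rw [h1, h2]
      have : w1.re = u - dr w u := by linarith
      rw [this, hl]
      linarith
    have h4 : z4im f p q w1 u = w.im - l * di w u := by
      unfold z4im
      rw [h1, h2]
      have : w1.im = f u - di w u := by linarith
      rw [this, hl]
      linarith
    have h5 : D w1 u = 0 := by
      simp only [hD]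
      rw [h3, h4]
      have := hV1 w
      simp only [hE] at this
      linarith
    have h6 := hU2 _ _ h5
    apply Complex.ext
    · simp only [hG]
      rw [← h6, h3, h1]; ring
    · simp only [hG]
      rw [← h6, h4, h2]; ring
  · intro w
    have := hU1 w
    simp only [hD] at this
    linarith
  · intro w u h
    apply hU2
    simp only [hD]
    linarith
  · intro w u h
    by_contra hcon
    push Not at hcon
    have h1 := hDmono w (U w) u hcon
    rw [hU1 w] at h1
    simp only [hD] at h1
    have : 0 ≤ μ * (u - U w) := mul_nonneg hμ0.le (by linarith)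
    linarith

end Pool.Agent.LipTrap
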