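import Pool.Agent.Lib.MP_2fd4e2_co.Lip.Conv
import Pool.Agent.Lib.MP_2fd4e2_co.Lip.Homeo

/-!
The third vertex meets the upper graph: comparison of areas.
-/

set_option autoImplicit false

namespace Pool.Agent.LipTrap

open Complex Set Filter Topology MeasureTheory
open scoped ENNReal NNReal

theorem toC_continuous : Continuous toC := by
  have e : toC = fun p : ℝ × ℝ => (p.1 : ℂ) + (p.2 : ℂ) * I := by
    funext p
    apply Complex.ext <;> simp [toC]
  rw [e]
  fun_prop

theorem vert_open {V : Set ℂ} (hV : IsOpen V) {x y : ℝ} (h : (⟨x, y⟩ : ℂ) ∈ V) :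
    ∃ ε0 > 0, ∀ ε, |ε| < ε0 → (⟨x, y + ε⟩ : ℂ) ∈ V := by
  have hc : Continuous (fun ε : ℝ => toC (x, y + ε)) := toC_continuous.comp (by fun_prop)
  have h1 : IsOpen ((fun ε : ℝ => toC (x, y + ε)) ⁻¹' V) := hV.preimage hc
  have h2 : (0 : ℝ) ∈ (fun ε : ℝ => toC (x, y + ε)) ⁻¹' V := by
    simp only [mem_preimage, add_zero]
    exact h
  obtain ⟨ε0, hε0, h3⟩ := Metric.isOpen_iff.mp h1 0 h2
  refine ⟨ε0, hε0, fun ε hε => ?_⟩
  have : ε ∈ Metric.ball (0 : ℝ) ε0 := by
    rw [Metric.mem_ball, Real.dist_eq, sub_zero]; exact hε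
  exact h3 this

/-- two ordered functions on the box with the same integral which differ on an open set -/
theorem no_gap {x0 x1 M : ℝ} {F1 F2 : ℝ × ℝ → ℝ} (h1 : Integrable F1 (box x0 x1 M))
    (h2 : Integrable F2 (box x0 x1 M)) (hle : ∀ p, F1 p ≤ F2 p)
    (heq : ∫ p, F1 p ∂(box x0 x1 M) = ∫ p, F2 p ∂(box x0 x1 M)) {O : Set (ℝ × ℝ)}
    (hO : IsOpen O) (hne : O.Nonempty) (hsub : O ⊆ Icc x0 x1 ×ˢ Icc (-M) M)
    (hdiff : ∀ p ∈ O, F1 p ≠ F2 p) : False := by
  have h3 : ∫ p, (F2 - F1) p ∂(box x0 x1 M) = 0 := by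
    simp only [Pi.sub_apply]
    rw [integral_sub h2 h1, heq, sub_self]
  rw [integral_eq_zero_iff_of_nonneg (fun p => by
    have := hle p
    simp only [Pi.zero_apply, Pi.sub_apply]; linarith) (h2.sub h1)] at h3
  have h4 : box x0 x1 M O = 0 := by
    refine measure_mono_null ?_ (ae_iff.mp h3)
    intro p hp h
    simp only [Pi.zero_apply, Pi.sub_apply] at h
    exact hdiff p hp (by linarith)
  have h5 : box x0 x1 M O = volume O := by
    unfold box
    rw [Measure.prod_restrict, ← Measure.volume_eq_prod, Measure.restrict_apply hO.measurableSet,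
      inter_eq_left.mpr hsub]
  rw [h5] at h4
  exact (hO.measure_pos volume hne).ne' h4

variable {f g : ℝ → ℝ} {A B p q l : ℝ}

theorem below_integral {g : ℝ → ℝ} (hg : Continuous g) {a b x0 x1 M fa fb : ℝ}
    (hgl : ∀ x ≤ a, g x = fa) (hgr : ∀ x, b ≤ x → g x = fb) (hM : ∀ x, |g x| ≤ M)
    (h0 : x0 ≤ a) (h1 : b ≤ x1) (hab : a ≤ b) :
    ∫ z, (if z.2 < g z.1 then (1 : ℝ) else 0) ∂(box x0 x1 M)
      = (∫ x in a..b, g x) + M * (b - a) + (a - x0) * (fa + M) + (x1 - b) * (fb + M) := by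
  have hint : Integrable (fun z : ℝ × ℝ => if z.2 < g z.1 then (1 : ℝ) else 0)
      (box x0 x1 M) := by
    apply Integrable.of_bound (C := 1)
    · apply Measurable.aestronglyMeasurable
      exact Measurable.ite (measurableSet_lt measurable_snd (hg.measurable.comp measurable_fst))
        measurable_const measurable_const
    · refine Eventually.of_forall fun z => ?_
      split_ifs <;> simp
  unfold box at hint ⊢
  rw [integral_prod _ hint]
  have h2 : ∀ x : ℝ, ∫ y in Icc (-M) M, (if y < g x then (1 : ℝ) else 0) = g x + M := by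
    intro x
    have := hM x
    rw [abs_le] at this
    exact integral_lt this.1 this.2
  simp only [h2]
  rw [integral_Icc_eq_integral_Ioc, ← intervalIntegral.integral_of_le (by linarith)]
  have hI : ∀ s t : ℝ, IntervalIntegrable (fun x => g x + M) volume s t := fun s t =>
    (hg.add continuous_const).intervalIntegrable s t
  rw [← intervalIntegral.integral_add_adjacent_intervals (hI x0 a) (hI a x1),
    ← intervalIntegral.integral_add_adjacent_intervals (hI a b) (hI b x1)]
  have e1 : ∫ x in x0..a, (g x + M) = (a - x0) * (fa + M) := by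
    have : ∫ x in x0..a, (g x + M) = ∫ x in x0..a, (fa + M) := by
      apply intervalIntegral.integral_congr
      intro x hx
      rw [uIcc_of_le h0] at hx
      simp only
      rw [hgl x hx.2]
    rw [this]; simp; ring
  have e2 : ∫ x in b..x1, (g x + M) = (x1 - b) * (fb + M) := by
    have : ∫ x in b..x1, (g x + M) = ∫ x in b..x1, (fb + M) := by
      apply intervalIntegral.integral_congr
      intro x hx
      rw [uIcc_of_le h1] at hx
      simp only
      rw [hgr x hx.1]
    rw [this]; simp; ring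
  have e3 : ∫ x in a..b, (g x + M) = (∫ x in a..b, g x) + M * (b - a) := by
    rw [intervalIntegral.integral_add (hg.intervalIntegrable _ _) (by simp)]
    simp; ring
  rw [e1, e2, e3]
  ring

/-- the trapezoid sums of the third vertex -/
theorem trap_third (H : Hyp f g A B p q l) {a b : ℝ} (hab : a < b) {U : ℂ → ℝ} {c : ℝ → ℂ}
    (hU : Lip U)
    (h4 : ∀ w, z4im f p q w (U w) = g (z4re f p q w (U w)))
    (hcr : ∀ t, (c t).re = z4re f p q ⟨t, f t⟩ (U ⟨t, f t⟩) + l * (U ⟨t, f t⟩ - t))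
    (hci : ∀ t, (c t).im = z4im f p q ⟨t, f t⟩ (U ⟨t, f t⟩) + l * (f (U ⟨t, f t⟩) - f t))
    (hUa : U ⟨a, f a⟩ = a) (hUb : U ⟨b, f b⟩ = b) :
    Tendsto (fun N => trap (dy c a b N) (2 ^ N)) atTop (𝓝 (∫ x in a..b, g x)) := by
  have hfc := cont_of_lip H.hf
  have hgc := cont_of_lip H.hg
  set τ : ℕ → ℕ → ℝ := fun N i => a + (b - a) * (i / 2 ^ N) with hτ
  set γ : ℝ → ℂ := fun t => ⟨t, f t⟩ with hγ
  have hγL : ∀ s t, ‖γ s - γ t‖ ≤ (1 + A) * |s - t| := by
    intro s t
    refine (Complex.norm_le_abs_re_add_abs_im _).trans ?_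
    simp only [hγ, Complex.sub_re, Complex.sub_im]
    have := H.hf s t
    nlinarith
  set W : ℂ → ℝ := fun w => z4re f p q w (U w) with hW
  have hWL : Lip W := by
    simp only [hW]
    unfold z4re
    exact (Lip.re.add ((hU.sub Lip.re).mul p)).sub (((Lip.comp H.hA H.hf hU).sub Lip.im).mul q)
  have hτ0 : ∀ N, τ N 0 = a := fun N => by simp [hτ]
  have hτ1 : ∀ N, τ N (2 ^ N) = b := fun N => by
    simp only [hτ]
    push_cast
    rw [div_self (by positivity)]
    ring
  have hτs : ∀ N i, τ N (i + 1) - τ N i = (b - a) / 2 ^ N := fun N i => by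
    simp only [hτ]; push_cast; ring
  have hstep : ∀ φ : ℂ → ℝ, Lip φ → ∃ K, ∀ N, ∀ i < 2 ^ N,
      |φ (γ (τ N (i + 1))) - φ (γ (τ N i))| ≤ K / 2 ^ N := by
    rintro φ ⟨C, hC⟩
    refine ⟨|C| * ((1 + A) * (b - a)), fun N i _ => ?_⟩
    refine (hC _ _).trans ?_
    have h1 := hγL (τ N (i + 1)) (τ N i)
    rw [hτs, abs_of_pos (by have : 0 < b - a := by linarith
                            positivity)] at h1
    calc C * ‖γ (τ N (i + 1)) - γ (τ N i)‖ ≤ |C| * ‖γ (τ N (i + 1)) - γ (τ N i)‖ :=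
          mul_le_mul_of_nonneg_right (le_abs_self C) (norm_nonneg _)
      _ ≤ |C| * ((1 + A) * ((b - a) / 2 ^ N)) := mul_le_mul_of_nonneg_left h1 (abs_nonneg _)
      _ = _ := by ring
  obtain ⟨K1, hK1⟩ := hstep _ Lip.re
  obtain ⟨K2, hK2⟩ := hstep _ hU
  obtain ⟨K4, hK4⟩ := hstep _ hWL
  have T1 := trap_tendsto H.hf H.hA hfc (fun N i => (γ (τ N i)).re) hK1
    (fun N => by simp only [hγ]; exact hτ0 N) (fun N => by simp only [hγ]; exact hτ1 N)
  have T2 := trap_tendsto H.hf H.hA hfc (fun N i => U (γ (τ N i))) hK2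
    (fun N => by simp only [hτ0]; exact hUa) (fun N => by simp only [hτ1]; exact hUb)
  have hWa : W (γ a) = a := by
    simp only [hW, hγ]
    rw [hUa]; unfold z4re; simp
  have hWb : W (γ b) = b := by
    simp only [hW, hγ]
    rw [hUb]; unfold z4re; simp
  have T4 := trap_tendsto H.hg H.hB hgc (fun N i => W (γ (τ N i))) hK4
    (fun N => by simp only [hτ0]; exact hWa) (fun N => by simp only [hτ1]; exact hWb)
  have hid : ∀ N, trap (dy c a b N) (2 ^ N)
      = (∑ i ∈ Finset.range (2 ^ N), (W (γ (τ N (i + 1))) - W (γ (τ N i))) *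
          ((g (W (γ (τ N i))) + g (W (γ (τ N (i + 1))))) / 2))
        + l * ((∑ i ∈ Finset.range (2 ^ N), (U (γ (τ N (i + 1))) - U (γ (τ N i))) *
          ((f (U (γ (τ N i))) + f (U (γ (τ N (i + 1))))) / 2))
          - ∑ i ∈ Finset.range (2 ^ N), ((γ (τ N (i + 1))).re - (γ (τ N i)).re) *
          ((f (γ (τ N i)).re + f (γ (τ N (i + 1))).re) / 2)) := by
    intro N
    set E : ℕ → ℝ := fun i => l * q / 2 * ((U (γ (τ N i)) - τ N i) ^ 2
      - (f (U (γ (τ N i))) - f (τ N i)) ^ 2) with hE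
    have hE0 : E 0 = 0 := by
      simp only [hE, hτ0]
      rw [show U (γ a) = a from hUa]; simp
    have hE1 : E (2 ^ N) = 0 := by
      simp only [hE, hτ1]
      rw [show U (γ b) = b from hUb]; simp
    have hsum : ∑ i ∈ Finset.range (2 ^ N), (E (i + 1) - E i) = 0 := by
      rw [Finset.sum_range_sub, hE0, hE1, sub_self]
    rw [← Finset.sum_sub_distrib, Finset.mul_sum, ← Finset.sum_add_distrib]
    rw [← add_zero (∑ i ∈ Finset.range (2 ^ N), _), ← hsum, ← Finset.sum_add_distrib]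
    unfold trap
    apply Finset.sum_congr rfl
    intro i _
    unfold dy
    change ((c (τ N (i + 1))).re - (c (τ N i)).re) * (((c (τ N i)).im + (c (τ N (i + 1))).im) / 2)
      = _
    rw [hcr, hcr, hci, hci]
    have e1 := h4 (γ (τ N i))
    have e2 := h4 (γ (τ N (i + 1)))
    simp only [hW]
    rw [← e1, ← e2]
    simp only [hE, hγ]
    unfold z4re z4im
    rw [H.hl]
    ring
  have hfin := T4.add ((T2.sub T1).const_mul l)
  rw [sub_self, mul_zero, add_zero] at hfin
  refine hfin.congr ?_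
  intro N
  rw [hid N]

end Pool.Agent.LipTrap
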