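import Pool.Agent.Lib.MP_2fd4e2_co.Lip.Core

/-!
The third vertex meets the upper graph.
-/

set_option autoImplicit false

namespace Pool.Agent.LipTrap

open Complex Set Filter Topology MeasureTheory
open scoped ENNReal NNReal

variable {f g : ℝ → ℝ} {A B p q l : ℝ}

theorem clamp_bound {f : ℝ → ℝ} {A a b : ℝ} (hA : 0 ≤ A) (hab : a < b)
    (hf : ∀ x y, |f x - f y| ≤ A * |x - y|)
    (hfl : ∀ x ≤ a, f x = f a) (hfr : ∀ x, b ≤ x → f x = f b) (x : ℝ) :
    |f x - f a| ≤ A * (b - a) := by
  rcases le_or_gt x a with h | h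
  · rw [hfl x h, sub_self, abs_zero]
    exact mul_nonneg hA (by linarith)
  · rcases le_or_gt b x with h1 | h1
    · rw [hfr x h1]
      have := hf b a
      rwa [abs_of_pos (show 0 < b - a by linarith)] at this
    · refine (hf x a).trans (mul_le_mul_of_nonneg_left ?_ hA)
      rw [abs_of_pos (by linarith)]
      linarith

theorem meet (H : Hyp f g A B p q l) {a b : ℝ} (hab : a < b)
    (hfl : ∀ x ≤ a, f x = f a) (hfr : ∀ x, b ≤ x → f x = f b)
    (hgl : ∀ x ≤ a, g x = f a) (hgr : ∀ x, b ≤ x → g x = f b)
    (hlt : ∀ x ∈ Ioo a b, f x < g x) :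
    ∃ t ∈ Ioo a b, ∃ u, t < u ∧ z4im f p q ⟨t, f t⟩ u = g (z4re f p q ⟨t, f t⟩ u) ∧
      z4im f p q ⟨t, f t⟩ u + l * (f u - f t) = g (z4re f p q ⟨t, f t⟩ u + l * (u - t)) := by
  obtain ⟨G, F, U, hGre, hGim, hFc, hFG, hGF, hUL, hU, hGr, hGi, hUu, hUlt⟩ := exists_homeo H
  have hfc := cont_of_lip H.hf
  have hgc := cont_of_lip H.hg
  have hl0 := H.hl0
  have hl1 : l ≤ 1 := by have := H.hl; have := H.hp; linarith
  set γ : ℝ → ℂ := fun t => ⟨t, f t⟩ with hγ
  set c : ℝ → ℂ := fun t => G (γ t) with hc
  have hγL : ∀ s t, ‖γ s - γ t‖ ≤ (1 + A) * |s - t| := by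
    intro s t
    refine (Complex.norm_le_abs_re_add_abs_im _).trans ?_
    simp only [hγ, Complex.sub_re, Complex.sub_im]
    have := H.hf s t
    nlinarith
  obtain ⟨L, hL0, hcL⟩ : ∃ L, 0 ≤ L ∧ ∀ s t, ‖c s - c t‖ ≤ L * |s - t| := by
    obtain ⟨C1, hC1⟩ := hGre
    obtain ⟨C2, hC2⟩ := hGim
    have hA := H.hA
    refine ⟨(|C1| + |C2|) * (1 + A), by positivity, fun s t => ?_⟩
    refine (Complex.norm_le_abs_re_add_abs_im _).trans ?_
    simp only [hc, Complex.sub_re, Complex.sub_im]
    have h1 := hC1 (γ s) (γ t)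
    have h2 := hC2 (γ s) (γ t)
    have h3 := mul_le_mul_of_nonneg_right (le_abs_self C1) (norm_nonneg (γ s - γ t))
    have h4 := mul_le_mul_of_nonneg_right (le_abs_self C2) (norm_nonneg (γ s - γ t))
    have h5 := mul_le_mul_of_nonneg_left (hγL s t) (show 0 ≤ |C1| + |C2| by positivity)
    calc _ ≤ |C1| * ‖γ s - γ t‖ + |C2| * ‖γ s - γ t‖ := by linarith
      _ = (|C1| + |C2|) * ‖γ s - γ t‖ := by ring
      _ ≤ (|C1| + |C2|) * ((1 + A) * |s - t|) := h5
      _ = _ := by ring
  have hcc : Continuous c := by
    have hC' : ∀ w w', dist (c w) (c w') ≤ (Real.toNNReal L : ℝ) * dist w w' := by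
      intro w w'
      rw [Real.dist_eq, dist_eq_norm]
      exact (hcL w w').trans (mul_le_mul_of_nonneg_right (Real.le_coe_toNNReal L) (abs_nonneg _))
    exact (LipschitzWith.of_dist_le_mul hC').continuous
  -- outside `(a, b)`
  have hfg : ∀ t, t ∉ Ioo a b → g t = f t := by
    intro t ht
    rcases le_or_gt t a with h | h
    · rw [hgl t h, hfl t h]
    · rcases le_or_gt b t with h1 | h1
      · rw [hgr t h1, hfr t h1]
      · exact absurd ⟨h, h1⟩ ht
  have hUout : ∀ t, t ∉ Ioo a b → U (γ t) = t := by
    intro t ht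
    symm
    apply hUu
    simp only [hγ]
    unfold z4im z4re
    simp only [sub_self, mul_zero, add_zero, sub_zero]
    exact (hfg t ht).symm
  have hcout : ∀ t, t ∉ Ioo a b → c t = γ t := by
    intro t ht
    have h1 := hUout t ht
    apply Complex.ext
    · simp only [hc]
      rw [hGr, h1]
      simp only [hγ]
      unfold z4re
      ring
    · simp only [hc]
      rw [hGi, h1]
      simp only [hγ]
      unfold z4im
      ring
  have hna : a ∉ Ioo a b := fun h => lt_irrefl _ h.1
  have hnb : b ∉ Ioo a b := fun h => lt_irrefl _ h.2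
  have hl' : ∀ t ≤ a, c t = ⟨t, (c a).im⟩ := by
    intro t ht
    rw [hcout t (fun h => by linarith [h.1]), hcout a hna]
    simp only [hγ]
    rw [hfl t ht]
  have hr' : ∀ t, b ≤ t → c t = ⟨t, (c b).im⟩ := by
    intro t ht
    rw [hcout t (fun h => by linarith [h.2]), hcout b hnb]
    simp only [hγ]
    rw [hfr t ht]
  have hca : (c a).im = f a := by rw [hcout a hna]
  have hcb : (c b).im = f b := by rw [hcout b hnb]
  -- the complement of the curve
  have hrange : ∀ z, z ∈ range c ↔ (F z).im = f (F z).re := by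
    intro z
    constructor
    · rintro ⟨t, rfl⟩
      simp only [hc, hFG, hγ]
    · intro h
      refine ⟨(F z).re, ?_⟩
      have : γ (F z).re = F z := by
        apply Complex.ext
        · rfl
        · simp only [hγ]; exact h.symm
      simp only [hc]
      rw [this, hGF]
  have hclosed : IsClosed (range c) := by
    have : range c = {z | (F z).im = f (F z).re} := by
      ext z; exact hrange z
    rw [this]
    exact isClosed_eq (Complex.continuous_im.comp hFc)
      (hfc.comp (Complex.continuous_re.comp hFc))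
  set U1 : Set ℂ := {z | f (F z).re < (F z).im} with hU1
  set U2 : Set ℂ := {z | (F z).im < f (F z).re} with hU2
  have hU1o : IsOpen U1 := isOpen_lt (hfc.comp (Complex.continuous_re.comp hFc))
    (Complex.continuous_im.comp hFc)
  have hU2o : IsOpen U2 := isOpen_lt (Complex.continuous_im.comp hFc)
    (hfc.comp (Complex.continuous_re.comp hFc))
  have hdisj : Disjoint U1 U2 := by
    rw [Set.disjoint_left]
    intro z h1 h2
    exact lt_asymm (show f (F z).re < (F z).im from h1) h2
  have hcover : ∀ z, z ∉ range c → z ∈ U1 ∪ U2 := by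
    intro z hz
    rw [hrange] at hz
    rcases lt_or_gt_of_ne hz with h | h
    · exact Or.inr h
    · exact Or.inl h
  -- bounds
  set M0 : ℝ := |f a| + (A + B) * (b - a) with hM0
  have hA := H.hA
  have hB := H.hB
  have hba : 0 < b - a := by linarith
  have hM00 : 0 ≤ M0 := by positivity
  have hfM : ∀ x, |f x| ≤ M0 := by
    intro x
    have h1 := clamp_bound hA hab H.hf hfl hfr x
    have h2 : |f x| ≤ |f x - f a| + |f a| := by
      have := abs_add_le (f x - f a) (f a)
      rwa [sub_add_cancel] at this
    have h3 : 0 ≤ B * (b - a) := by positivity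
    rw [hM0]
    nlinarith
  have hga : g a = f a := hgl a le_rfl
  have hgb : g b = f b := hgr b le_rfl
  have hgM : ∀ x, |g x| ≤ M0 := by
    intro x
    have h1 := clamp_bound hB hab H.hg (fun x hx => by rw [hgl x hx, hga])
      (fun x hx => by rw [hgr x hx, hgb]) x
    rw [hga] at h1
    have h2 : |g x| ≤ |g x - f a| + |f a| := by
      have := abs_add_le (g x - f a) (f a)
      rwa [sub_add_cancel] at this
    have h3 : 0 ≤ A * (b - a) := by positivity
    rw [hM0]
    nlinarith
  have hfar1 : ∀ z : ℂ, z.im < -(3 * M0) → z ∈ U1 := by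
    intro z hz
    have h1 := hGi (F z)
    rw [hGF, hU] at h1
    have h2 := abs_le.mp (hfM (U (F z)))
    have h3 := abs_le.mp (hgM (z4re f p q (F z) (U (F z))))
    have h4 := abs_le.mp (hfM (F z).re)
    show f (F z).re < (F z).im
    by_contra hcon
    push Not at hcon
    have h5 : l * (f (U (F z)) - (F z).im) ≥ l * (-M0 - M0) :=
      mul_le_mul_of_nonneg_left (by linarith) hl0.le
    nlinarith
  have hfar2 : ∀ z : ℂ, 3 * M0 < z.im → z ∈ U2 := by
    intro z hz
    have h1 := hGi (F z)
    rw [hGF, hU] at h1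
    have h2 := abs_le.mp (hfM (U (F z)))
    have h3 := abs_le.mp (hgM (z4re f p q (F z) (U (F z))))
    have h4 := abs_le.mp (hfM (F z).re)
    show (F z).im < f (F z).re
    by_contra hcon
    push Not at hcon
    have h5 : l * (f (U (F z)) - (F z).im) ≤ l * (M0 + M0) :=
      mul_le_mul_of_nonneg_left (by linarith) hl0.le
    nlinarith
  obtain ⟨R, hR⟩ := (isCompact_Icc (a := a) (b := b)).exists_bound_of_continuousOn hcc.continuousOn
  set M : ℝ := |R| + 4 * M0 + |a| + |b| + 2 with hM
  have hRM : ∀ t ∈ Icc a b, ‖c t‖ < M := by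
    intro t ht
    have := hR t ht
    have := le_abs_self R
    have := abs_nonneg a
    have := abs_nonneg b
    linarith
  have hM0M : M0 < M := by
    have := abs_nonneg R
    have := abs_nonneg a
    have := abs_nonneg b
    linarith
  have haM : -M < a := by
    have := abs_nonneg R
    have := neg_abs_le a
    have := abs_nonneg b
    linarith
  have hbM : b < M := by
    have := abs_nonneg R
    have := le_abs_self b
    have := abs_nonneg a
    linarith
  -- convergence of the crossing numbers
  have hconv : ∀ (z z0 : ℂ) (σ : ℝ), 0 < σ * ((F z).im - f (F z).re) →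
      0 < σ * ((F z0).im - f (F z0).re) → z0.re ≤ -M →
      ∀ᶠ N in atTop, X (dy c a b N) (2 ^ N) z = if z0.im < (c a).im then 1 else 0 := by
    intro z z0 σ hz hz0 hre
    set P : ℝ → ℂ := fun θ => G (toC ((1 - θ) * (F z).re + θ * (F z0).re,
      f ((1 - θ) * (F z).re + θ * (F z0).re) + ((1 - θ) * ((F z).im - f (F z).re)
        + θ * ((F z0).im - f (F z0).re)))) with hP
    have hGc : Continuous G := by
      have e : G = fun w => (((G w).re : ℝ) : ℂ) + (((G w).im : ℝ) : ℂ) * I := by
        funext w
        exact (Complex.re_add_im (G w)).symm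
      rw [e]
      have h1 := hGre.continuous
      have h2 := hGim.continuous
      fun_prop
    have hPc : Continuous P := by
      have h1 := toC_continuous
      simp only [hP]
      fun_prop
    have hP0 : P 0 = z := by
      simp only [hP, sub_zero, one_mul, zero_mul, add_zero, add_sub_cancel]
      have : toC ((F z).re, (F z).im) = F z := by
        apply Complex.ext <;> rfl
      rw [this, hGF]
    have hP1 : P 1 = z0 := by
      simp only [hP, sub_self, one_mul, zero_mul, zero_add, add_sub_cancel]
      have : toC ((F z0).re, (F z0).im) = F z0 := by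
        apply Complex.ext <;> rfl
      rw [this, hGF]
    have hK : IsCompact (P '' Icc 0 1) := isCompact_Icc.image hPc
    have hK' : IsPreconnected (P '' Icc 0 1) := isPreconnected_Icc.image _ hPc.continuousOn
    refine X_eventually hab hcL hl' hr' hL0 hclosed hK hK' ?_ (p := z) (p0 := z0)
      ⟨0, ⟨le_rfl, zero_le_one⟩, hP0⟩ ⟨1, ⟨zero_le_one, le_rfl⟩, hP1⟩ ?_
    · rintro _ ⟨θ, hθ, rfl⟩ ⟨t, ht⟩
      simp only [hP, hc] at ht
      have h1 := congrArg F ht
      rw [hFG, hFG] at h1
      have h2 := congrArg Complex.re h1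
      have h3 := congrArg Complex.im h1
      simp only [hγ, toC] at h2 h3
      rw [h2] at h3
      have h4 : (1 - θ) * ((F z).im - f (F z).re) + θ * ((F z0).im - f (F z0).re) = 0 := by
        linarith
      have h5 : (1 - θ) * (σ * ((F z).im - f (F z).re)) + θ * (σ * ((F z0).im - f (F z0).re)) = 0 := by
        calc _ = σ * ((1 - θ) * ((F z).im - f (F z).re) + θ * ((F z0).im - f (F z0).re)) := by ring
          _ = 0 := by rw [h4, mul_zero]
      rcases eq_or_lt_of_le hθ.1 with h6 | h6
      · rw [← h6] at h5; linarith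
      · have h7 := mul_pos h6 hz0
        have h8 := mul_nonneg (show 0 ≤ 1 - θ by linarith [hθ.2]) hz.le
        linarith
    · intro t ht
      have h1 := hRM t ht
      have h2 := Complex.abs_re_le_norm (c t)
      have h3 := neg_abs_le (c t).re
      linarith
  have hconv1 : ∀ z ∈ U1, ∀ᶠ N in atTop, X (dy c a b N) (2 ^ N) z = 1 := by
    intro z hz
    have h0 : (⟨-M, -(3 * M0) - 1⟩ : ℂ) ∈ U1 := hfar1 _ (by simp only; linarith)
    have h1 := hconv z ⟨-M, -(3 * M0) - 1⟩ 1 (by rw [one_mul]; exact sub_pos.mpr hz)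
      (by rw [one_mul]; exact sub_pos.mpr h0) le_rfl
    have h2 : -(3 * M0) - 1 < (c a).im := by
      rw [hca]
      have := abs_le.mp (hfM a)
      linarith
    simpa only [h2, if_true] using h1
  have hconv2 : ∀ z ∈ U2, ∀ᶠ N in atTop, X (dy c a b N) (2 ^ N) z = 0 := by
    intro z hz
    have h0 : (⟨-M, 3 * M0 + 1⟩ : ℂ) ∈ U2 := hfar2 _ (by simp only; linarith)
    have h1 := hconv z ⟨-M, 3 * M0 + 1⟩ (-1) (by
      have : (F z).im < f (F z).re := hz
      linarith) (by
      have : (F (⟨-M, 3 * M0 + 1⟩ : ℂ)).im < f (F (⟨-M, 3 * M0 + 1⟩ : ℂ)).re := h0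
      linarith) le_rfl
    have h2 : ¬ 3 * M0 + 1 < (c a).im := by
      rw [hca]
      have := abs_le.mp (hfM a)
      push Not
      linarith
    simpa only [h2, if_false] using h1
  -- the area of `U1`
  set F1 : ℝ × ℝ → ℝ := fun z => if f (F (toC z)).re < (F (toC z)).im then 1 else 0 with hF1
  set F2 : ℝ × ℝ → ℝ := fun z => if z.2 < g z.1 then 1 else 0 with hF2
  have hT := trap_third H hab (U := U) (c := c) hUL hU (fun t => hGr (γ t)) (fun t => hGi (γ t))
    (hUout a hna) (hUout b hnb)
  have hdyIcc : ∀ N i : ℕ, i ≤ 2 ^ N → a + (b - a) * ((i : ℝ) / 2 ^ N) ∈ Icc a b := by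
    intro N i hi
    have h2 : (i : ℝ) / 2 ^ N ≤ 1 := by
      rw [div_le_one (by positivity)]
      exact_mod_cast hi
    have h3 : 0 ≤ (i : ℝ) / 2 ^ N := by positivity
    constructor <;> nlinarith
  have harea : ∫ z, F1 z ∂(box (-M) M M) = (∫ x in a..b, g x) + M * ((c b).re - (c a).re)
      + ((c a).re - -M) * ((c a).im + M) + (M - (c b).re) * ((c b).im + M) := by
    refine area_eq (v := dy c a b) (K := L * (b - a)) (P := c a) (Q := c b) ?_ ?_ ?_ ?_ ?_ ?_ ?_ F1 ?_ hT
    · intro N i _
      rw [← Complex.sub_re]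
      refine (Complex.abs_re_le_norm _).trans ?_
      unfold dy
      refine (hcL _ _).trans ?_
      have h2 : a + (b - a) * (((i + 1 : ℕ) : ℝ) / 2 ^ N) - (a + (b - a) * ((i : ℝ) / 2 ^ N))
          = (b - a) / 2 ^ N := by push_cast; ring
      rw [h2, abs_of_pos (by positivity), mul_div_assoc]
    · intro N i
      unfold dy
      congr 3
      push_cast
      rw [pow_succ]
      field_simp
    · intro N; unfold dy; simp
    · intro N; unfold dy
      push_cast
      rw [div_self (by positivity)]
      congr 1; ring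
    · intro N i hi
      exact (Complex.abs_im_le_norm _).trans (hRM _ (hdyIcc N i hi)).le
    · intro N i hi
      have h1 := (Complex.abs_re_le_norm _).trans (hRM _ (hdyIcc N i hi)).le
      exact (abs_le.mp h1).1
    · intro N i hi
      have h1 := (Complex.abs_re_le_norm _).trans (hRM _ (hdyIcc N i hi)).le
      exact (abs_le.mp h1).2
    · filter_upwards [box_ae hcL (-M) M M] with z hz
      rcases hcover _ hz with h | h
      · have h1 : F1 z = 1 := by simp only [hF1]; exact if_pos h
        rw [h1]
        exact tendsto_nhds_of_eventually_eq (hconv1 _ h)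
      · have h1 : F1 z = 0 := by simp only [hF1]; exact if_neg (fun h' => lt_asymm h h')
        rw [h1]
        exact tendsto_nhds_of_eventually_eq (hconv2 _ h)
  have hcare : (c a).re = a := by rw [hcout a hna]
  have hcbre : (c b).re = b := by rw [hcout b hnb]
  rw [hca, hcb, hcare, hcbre] at harea
  have hbelow := below_integral hgc (a := a) (b := b) (x0 := -M) (x1 := M) (M := M) hgl hgr
    (fun x => (hgM x).trans hM0M.le) haM.le hbM.le hab.le
  have heq : ∫ z, F1 z ∂(box (-M) M M) = ∫ z, F2 z ∂(box (-M) M M) := by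
    rw [harea]; simp only [hF2]; rw [hbelow]
  have hF1m : Measurable F1 := by
    simp only [hF1]
    refine Measurable.ite (measurableSet_lt ?_ ?_) measurable_const measurable_const
    · exact (hfc.comp (Complex.continuous_re.comp (hFc.comp toC_continuous))).measurable
    · exact (Complex.continuous_im.comp (hFc.comp toC_continuous)).measurable
  have hF2m : Measurable F2 := by
    simp only [hF2]
    exact Measurable.ite (measurableSet_lt measurable_snd (hgc.measurable.comp measurable_fst))
      measurable_const measurable_const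
  have hF1i : Integrable F1 (box (-M) M M) := by
    refine Integrable.of_bound (C := 1) hF1m.aestronglyMeasurable (Eventually.of_forall fun z => ?_)
    simp only [hF1]; split_ifs <;> simp
  have hF2i : Integrable F2 (box (-M) M M) := by
    refine Integrable.of_bound (C := 1) hF2m.aestronglyMeasurable (Eventually.of_forall fun z => ?_)
    simp only [hF2]; split_ifs <;> simp
  -- suppose there is no meeting point
  by_contra hcon
  have hne : ∀ t ∈ Ioo a b, (c t).im - g (c t).re ≠ 0 := by
    intro t ht h0
    apply hcon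
    refine ⟨t, ht, U (γ t), ?_, hU (γ t), ?_⟩
    · apply hUlt
      simp only [hγ]
      unfold z4im z4re
      simp only [sub_self, mul_zero, add_zero, sub_zero]
      exact hlt t ht
    · have h1 := hGr (γ t)
      have h2 := hGi (γ t)
      have h3 : (c t).im = g (c t).re := by linarith
      simp only [hc] at h3
      rw [h1, h2] at h3
      exact h3
  have hhc : Continuous (fun t => (c t).im - g (c t).re) :=
    (Complex.continuous_im.comp hcc).sub (hgc.comp (Complex.continuous_re.comp hcc))
  set m : ℝ := (a + b) / 2 with hm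
  have hmI : m ∈ Ioo a b := ⟨by linarith, by linarith⟩
  have hsign : (∀ t ∈ Ioo a b, 0 < (c t).im - g (c t).re) ∨
      (∀ t ∈ Ioo a b, (c t).im - g (c t).re < 0) := by
    rcases lt_or_gt_of_ne (hne m hmI) with h | h
    · right
      intro t ht
      by_contra hcon2
      push Not at hcon2
      have h1 := isPreconnected_Ioo.intermediate_value hmI ht hhc.continuousOn
      obtain ⟨s, hs, hs'⟩ := h1 (show (0 : ℝ) ∈ Icc _ _ from ⟨h.le, hcon2⟩)
      exact hne s hs hs'
    · left
      intro t ht
      by_contra hcon2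
      push Not at hcon2
      have h1 := isPreconnected_Ioo.intermediate_value ht hmI hhc.continuousOn
      obtain ⟨s, hs, hs'⟩ := h1 (show (0 : ℝ) ∈ Icc _ _ from ⟨hcon2, h.le⟩)
      exact hne s hs hs'
  have hmid : (⟨m, g m⟩ : ℂ) ∉ range c := by
    rintro ⟨t, ht⟩
    by_cases htI : t ∈ Ioo a b
    · apply hne t htI
      rw [ht]
      simp
    · rw [hcout t htI] at ht
      have := congrArg Complex.re ht
      simp only [hγ] at this
      exact htI (this ▸ hmI)
  have hgm := abs_le.mp (hgM m)
  have hgraph : ∀ t, t ∉ Ioo a b → (c t).im = g (c t).re := by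
    intro t ht
    rw [hcout t ht]
    simp only [hγ]
    exact (hfg t ht).symm
  rcases hsign with hpos | hneg
  · -- the curve is above the graph of `g`
    have hS : IsPreconnected {z : ℂ | z.im < g z.re} := by
      have h1 : {z : ℂ | z.im < g z.re}
          = (fun z : ℝ × ℝ => toC (z.1, g z.1 + z.2)) '' (univ ×ˢ Iio 0) := by
        ext z
        simp only [mem_ofPred_eq, mem_image, mem_prod, mem_univ, true_and, mem_Iio, Prod.exists]
        constructor
        · intro h
          refine ⟨z.re, z.im - g z.re, by linarith, ?_⟩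
          apply Complex.ext
          · rfl
          · simp [toC]
        · rintro ⟨x, s, hs, rfl⟩
          simp only [toC]
          linarith
      rw [h1]
      exact (isPreconnected_univ.prod isPreconnected_Iio).image _
        (toC_continuous.comp (by fun_prop)).continuousOn
    have hSU : {z : ℂ | z.im < g z.re} ⊆ U1 := by
      apply hS.subset_left_of_subset_union hU1o hU2o hdisj
      · intro z hz
        apply hcover
        rintro ⟨t, rfl⟩
        have hz' : (c t).im < g (c t).re := hz
        by_cases ht : t ∈ Ioo a b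
        · linarith [hpos t ht]
        · linarith [hgraph t ht]
      · refine ⟨⟨0, -(3 * M0) - 1⟩, ?_, hfar1 _ (by simp only; linarith)⟩
        show -(3 * M0) - 1 < g 0
        have := abs_le.mp (hgM 0)
        linarith
    have hmU : (⟨m, g m⟩ : ℂ) ∈ U1 := by
      rcases hcover _ hmid with h | h
      · exact h
      · exfalso
        obtain ⟨ε0, hε0, h1⟩ := vert_open hU2o h
        have h2 := h1 (-(ε0 / 2)) (by rw [abs_neg, abs_of_pos (by linarith)]; linarith)
        have h3 : (⟨m, g m + -(ε0 / 2)⟩ : ℂ) ∈ U1 := hSU (by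
          show g m + -(ε0 / 2) < g m
          linarith)
        exact Set.disjoint_left.mp hdisj h3 h2
    obtain ⟨ε0, hε0, h1⟩ := vert_open hU1o hmU
    set ε : ℝ := min (ε0 / 2) ((M - M0) / 2) with hε
    have hεpos : 0 < ε := lt_min (by linarith) (by linarith)
    have hε1 : ε ≤ ε0 / 2 := min_le_left _ _
    have hε2 : ε ≤ (M - M0) / 2 := min_le_right _ _
    refine no_gap hF2i hF1i ?_ heq.symm
      (O := {z : ℝ × ℝ | toC z ∈ U1} ∩ {z | g z.1 < z.2} ∩ (Ioo (-M) M ×ˢ Ioo (-M) M)) ?_ ?_ ?_ ?_
    · intro z
      simp only [hF1, hF2]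
      by_cases h : z.2 < g z.1
      · have h2 : f (F (toC z)).re < (F (toC z)).im := hSU (show (toC z).im < g (toC z).re from h)
        rw [if_pos h, if_pos h2]
      · rw [if_neg h]
        split_ifs <;> simp
    · exact ((hU1o.preimage toC_continuous).inter
        (isOpen_lt (hgc.comp continuous_fst) continuous_snd)).inter (isOpen_Ioo.prod isOpen_Ioo)
    · refine ⟨(m, g m + ε), ⟨⟨h1 ε (by rw [abs_of_pos hεpos]; linarith), ?_⟩, ?_, ?_⟩⟩
      · show g m < g m + ε
        linarith
      · exact ⟨by show -M < m; linarith [hmI.1], by show m < M; linarith [hmI.2]⟩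
      · exact ⟨by show -M < g m + ε; linarith, by show g m + ε < M; linarith⟩
    · rintro z ⟨_, h2, h3⟩
      exact ⟨⟨h2.1.le, h2.2.le⟩, ⟨h3.1.le, h3.2.le⟩⟩
    · rintro z ⟨⟨h2, h3⟩, _⟩
      have h4 : F1 z = 1 := by simp only [hF1]; exact if_pos h2
      have h5 : F2 z = 0 := by
        simp only [hF2]
        exact if_neg (not_lt.mpr (le_of_lt h3))
      rw [h4, h5]
      exact zero_ne_one
  · -- the curve is below the graph of `g`
    have hS : IsPreconnected {z : ℂ | g z.re < z.im} := by
      have h1 : {z : ℂ | g z.re < z.im}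
          = (fun z : ℝ × ℝ => toC (z.1, g z.1 + z.2)) '' (univ ×ˢ Ioi 0) := by
        ext z
        simp only [mem_ofPred_eq, mem_image, mem_prod, mem_univ, true_and, mem_Ioi, Prod.exists]
        constructor
        · intro h
          refine ⟨z.re, z.im - g z.re, by linarith, ?_⟩
          apply Complex.ext
          · rfl
          · simp [toC]
        · rintro ⟨x, s, hs, rfl⟩
          simp only [toC]
          linarith
      rw [h1]
      exact (isPreconnected_univ.prod isPreconnected_Ioi).image _
        (toC_continuous.comp (by fun_prop)).continuousOn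
    have hSU : {z : ℂ | g z.re < z.im} ⊆ U2 := by
      apply hS.subset_left_of_subset_union hU2o hU1o hdisj.symm
      · intro z hz
        rw [union_comm]
        apply hcover
        rintro ⟨t, rfl⟩
        have hz' : g (c t).re < (c t).im := hz
        by_cases ht : t ∈ Ioo a b
        · linarith [hneg t ht]
        · linarith [hgraph t ht]
      · refine ⟨⟨0, 3 * M0 + 1⟩, ?_, hfar2 _ (by simp only; linarith)⟩
        show g 0 < 3 * M0 + 1
        have := abs_le.mp (hgM 0)
        linarith
    have hmU : (⟨m, g m⟩ : ℂ) ∈ U2 := by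
      rcases hcover _ hmid with h | h
      · exfalso
        obtain ⟨ε0, hε0, h1⟩ := vert_open hU1o h
        have h2 := h1 (ε0 / 2) (by rw [abs_of_pos (by linarith)]; linarith)
        have h3 : (⟨m, g m + (ε0 / 2)⟩ : ℂ) ∈ U2 := hSU (by
          show g m < g m + (ε0 / 2)
          linarith)
        exact Set.disjoint_left.mp hdisj h2 h3
      · exact h
    obtain ⟨ε0, hε0, h1⟩ := vert_open hU2o hmU
    set ε : ℝ := min (ε0 / 2) ((M - M0) / 2) with hε
    have hεpos : 0 < ε := lt_min (by linarith) (by linarith)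
    have hε1 : ε ≤ ε0 / 2 := min_le_left _ _
    have hε2 : ε ≤ (M - M0) / 2 := min_le_right _ _
    refine no_gap hF1i hF2i ?_ heq
      (O := {z : ℝ × ℝ | toC z ∈ U2} ∩ {z | z.2 < g z.1} ∩ (Ioo (-M) M ×ˢ Ioo (-M) M)) ?_ ?_ ?_ ?_
    · intro z
      simp only [hF1, hF2]
      by_cases h : f (F (toC z)).re < (F (toC z)).im
      · have h2 : z.2 < g z.1 := by
          by_contra hcon3
          push Not at hcon3
          have hz1 : (⟨z.1, z.2⟩ : ℂ) ∈ U1 := h
          obtain ⟨ε1, hε1', h3⟩ := vert_open hU1o hz1
          have h4 := h3 (ε1 / 2) (by rw [abs_of_pos (by linarith)]; linarith)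
          have h5 : (⟨z.1, z.2 + ε1 / 2⟩ : ℂ) ∈ U2 := hSU (by
            show g z.1 < z.2 + ε1 / 2
            linarith)
          exact Set.disjoint_left.mp hdisj h4 h5
        rw [if_pos h, if_pos h2]
      · rw [if_neg h]
        split_ifs <;> simp
    · exact ((hU2o.preimage toC_continuous).inter
        (isOpen_lt continuous_snd (hgc.comp continuous_fst))).inter (isOpen_Ioo.prod isOpen_Ioo)
    · refine ⟨(m, g m + -ε), ⟨⟨h1 (-ε) (by rw [abs_neg, abs_of_pos hεpos]; linarith), ?_⟩, ?_, ?_⟩⟩
      · show g m + -ε < g m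
        linarith
      · exact ⟨by show -M < m; linarith [hmI.1], by show m < M; linarith [hmI.2]⟩
      · exact ⟨by show -M < g m + -ε; linarith, by show g m + -ε < M; linarith⟩
    · rintro z ⟨_, h2, h3⟩
      exact ⟨⟨h2.1.le, h2.2.le⟩, ⟨h3.1.le, h3.2.le⟩⟩
    · rintro z ⟨⟨h2, h3⟩, _⟩
      have h4 : F1 z = 0 := by
        simp only [hF1]
        exact if_neg (fun h' => lt_asymm (show (F (toC z)).im < f (F (toC z)).re from h2) h')
      have h5 : F2 z = 1 := by
        simp only [hF2]
        exact if_pos h3
      rw [h4, h5]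
      exact zero_ne_one

end Pool.Agent.LipTrap
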