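import Mathlib

/-!
Crossing numbers of polygonal lines with two horizontal end rays.
-/

set_option autoImplicit false

namespace Pool.Agent.LipTrap

open Complex Set Filter Topology

/-- argument with the cut along the upward ray -/
noncomputable def Au (z : ℂ) : ℝ := Complex.arg (I * z)

theorem Au_of_nonneg {z : ℂ} (h : 0 ≤ z.re) : 0 ≤ Au z ∧ Au z ≤ Real.pi := by
  unfold Au
  refine ⟨Complex.arg_nonneg_iff.mpr (by simpa using h), Complex.arg_le_pi _⟩

theorem Au_of_neg {z : ℂ} (h : z.re < 0) : -Real.pi < Au z ∧ Au z < 0 := by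
  unfold Au
  refine ⟨Complex.neg_pi_lt_arg _, Complex.arg_neg_iff.mpr (by simpa using h)⟩

/-- signed crossing of the edge `a b` with the upward ray from `p` -/
noncomputable def chi (a b p : ℂ) : ℝ :=
  if a.re < p.re ∧ p.re ≤ b.re ∧
      (a - p).re * (b - p).im - (a - p).im * (b - p).re < 0 then 1
  else if b.re < p.re ∧ p.re ≤ a.re ∧
      0 < (a - p).re * (b - p).im - (a - p).im * (b - p).re then -1
  else 0

theorem int_case {x : ℝ} {k : ℤ} (h : x = 2 * Real.pi * k) (h1 : -(2 * Real.pi) < x)
    (h2 : x < 2 * Real.pi) : x = 0 := by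
  have hpi := Real.pi_pos
  have h3 : (-1 : ℝ) < k := by
    by_contra hcon
    push Not at hcon
    nlinarith
  have h4 : (k : ℝ) < 1 := by
    by_contra hcon
    push Not at hcon
    nlinarith
  have h5 : (-1 : ℤ) < k := by exact_mod_cast h3
  have h6 : k < (1 : ℤ) := by exact_mod_cast h4
  have : k = 0 := by omega
  rw [h, this]; simp

theorem ratio_not_neg {a b p : ℂ} (hp : p ∉ segment ℝ a b) :
    ¬ (((b - p) / (a - p)).re < 0 ∧ ((b - p) / (a - p)).im = 0) := by
  have ha : a - p ≠ 0 := by
    intro h
    apply hp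
    rw [sub_eq_zero.mp h]
    exact left_mem_segment ℝ _ _
  set al := a - p with hal
  set be := b - p with hbe
  rintro ⟨h1, h2⟩
  apply hp
  set r := (be / al).re with hr
  have h3 : be = (r : ℂ) * al := by
    have : be / al = (r : ℂ) := by
      apply Complex.ext
      · simp [hr]
      · simp [h2]
    rw [← this, div_mul_cancel₀ _ ha]
  refine ⟨-r / (1 - r), 1 / (1 - r), by apply div_nonneg <;> linarith,
    by apply div_nonneg <;> linarith, ?_, ?_⟩
  · have : (1 : ℝ) - r ≠ 0 := by linarith
    field_simp
    ring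
  · have h4 : (1 : ℝ) - r ≠ 0 := by linarith
    have h4' : (1 : ℂ) - (r : ℂ) ≠ 0 := by exact_mod_cast h4
    have h5 : b = p + (r : ℂ) * (a - p) := by
      rw [← hal, ← h3, hbe]; ring
    rw [h5]
    simp only [Complex.real_smul]
    push_cast
    field_simp
    ring

theorem ratio_mem_slitPlane {a b p : ℂ} (hp : p ∉ segment ℝ a b) :
    (b - p) / (a - p) ∈ Complex.slitPlane := by
  have ha : a - p ≠ 0 := by
    intro h
    apply hp
    rw [sub_eq_zero.mp h]
    exact left_mem_segment ℝ _ _
  have hb : b - p ≠ 0 := by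
    intro h
    apply hp
    rw [sub_eq_zero.mp h]
    exact right_mem_segment ℝ _ _
  rw [Complex.mem_slitPlane_iff]
  by_contra hcon
  push Not at hcon
  apply ratio_not_neg hp
  refine ⟨lt_of_le_of_ne hcon.1 ?_, hcon.2⟩
  intro h
  exact div_ne_zero hb ha (Complex.ext h hcon.2)

theorem arg_ratio {a b p : ℂ} (hp : p ∉ segment ℝ a b) :
    Complex.arg ((b - p) / (a - p)) = Au (b - p) - Au (a - p) - 2 * Real.pi * chi a b p := by
  have hpi := Real.pi_pos
  have hnot := ratio_not_neg hp
  have ha : a - p ≠ 0 := by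
    intro h
    apply hp
    rw [sub_eq_zero.mp h]
    exact left_mem_segment ℝ _ _
  have hb : b - p ≠ 0 := by
    intro h
    apply hp
    rw [sub_eq_zero.mp h]
    exact right_mem_segment ℝ _ _
  set al := a - p with hal
  set be := b - p with hbe
  have hth1 : Complex.arg (be / al) ≠ Real.pi := by
    intro h
    exact hnot (Complex.arg_eq_pi_iff.mp h)
  have hth2 : Complex.arg (be / al) < Real.pi := lt_of_le_of_ne (Complex.arg_le_pi _) hth1
  have hth3 : -Real.pi < Complex.arg (be / al) := Complex.neg_pi_lt_arg _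
  obtain ⟨k, hk⟩ : ∃ k : ℤ, Au be - Au al - Complex.arg (be / al) = 2 * Real.pi * k := by
    have h1 : (Complex.arg ((I * be) / (I * al)) : Real.Angle)
        = Complex.arg (I * be) - Complex.arg (I * al) :=
      Complex.arg_div_coe_angle (mul_ne_zero I_ne_zero hb) (mul_ne_zero I_ne_zero ha)
    rw [mul_div_mul_left _ _ I_ne_zero] at h1
    have h2 : ((Au be - Au al : ℝ) : Real.Angle) = (Complex.arg (be / al) : ℝ) := by
      rw [h1]; unfold Au; rfl
    exact Real.Angle.angle_eq_iff_two_pi_dvd_sub.mp h2
  have him : (be / al).im = (al.re * be.im - al.im * be.re) / Complex.normSq al := by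
    rw [Complex.div_im]; ring
  have hns : 0 < Complex.normSq al := Complex.normSq_pos.mpr ha
  have harg_neg : al.re * be.im - al.im * be.re < 0 ↔ Complex.arg (be / al) < 0 := by
    rw [Complex.arg_neg_iff, him, div_neg_iff]
    constructor
    · intro h; exact Or.inr ⟨h, hns⟩
    · rintro (⟨_, h⟩ | ⟨h, _⟩)
      · linarith
      · exact h
  have hred : a.re < p.re ↔ al.re < 0 := by rw [hal]; simp
  have hred' : b.re < p.re ↔ be.re < 0 := by rw [hbe]; simp
  have hge : p.re ≤ a.re ↔ 0 ≤ al.re := by rw [hal]; simp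
  have hge' : p.re ≤ b.re ↔ 0 ≤ be.re := by rw [hbe]; simp
  unfold chi
  simp only [← hal, ← hbe, hred, hred', hge, hge']
  rcases lt_or_ge al.re 0 with h1 | h1
  · have hA := Au_of_neg h1
    rcases lt_or_ge be.re 0 with h2 | h2
    · have hB := Au_of_neg h2
      rw [if_neg (by rintro ⟨_, h, _⟩; linarith), if_neg (by rintro ⟨_, h, _⟩; linarith)]
      have := int_case hk (by linarith [hA.1, hA.2, hB.1, hB.2]) (by linarith [hA.1, hA.2, hB.1, hB.2])
      linarith
    · have hB := Au_of_nonneg h2
      by_cases hc : al.re * be.im - al.im * be.re < 0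
      · rw [if_pos ⟨h1, h2, hc⟩]
        have hneg := harg_neg.mp hc
        have hk' : Au be - Au al - Complex.arg (be / al) - 2 * Real.pi
            = 2 * Real.pi * ((k - 1 : ℤ) : ℝ) := by
          push_cast; linarith
        have := int_case hk' (by linarith [hA.1, hA.2, hB.1, hB.2])
          (by linarith [hA.1, hA.2, hB.1, hB.2])
        linarith
      · rw [if_neg (by rintro ⟨_, _, h⟩; exact hc h), if_neg (by rintro ⟨h, _, _⟩; linarith)]
        have hnn : 0 ≤ Complex.arg (be / al) := by
          by_contra hcon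
          exact hc (harg_neg.mpr (not_le.mp hcon))
        rcases eq_or_lt_of_le hnn with h0 | h0
        · -- be / al is a positive real: impossible
          exfalso
          have h3 := Complex.arg_eq_zero_iff.mp h0.symm
          have h4 : be = ((be / al).re : ℂ) * al := by
            have : be / al = ((be / al).re : ℂ) := by
              apply Complex.ext
              · simp
              · simp [h3.2]
            rw [← this, div_mul_cancel₀ _ ha]
          have h5 : be.re = (be / al).re * al.re := by
            have := congrArg Complex.re h4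
            rw [Complex.re_ofReal_mul] at this
            exact this
          have h6 : (be / al).re ≠ 0 := by
            intro h
            rw [h] at h4
            apply hb
            rw [h4]; simp
          have h7 : 0 < (be / al).re := lt_of_le_of_ne h3.1 h6.symm
          nlinarith [mul_pos h7 (neg_pos.mpr h1)]
        · have := int_case hk (by linarith [hA.1, hA.2, hB.1, hB.2])
            (by linarith [hA.1, hA.2, hB.1, hB.2])
          linarith
  · have hA := Au_of_nonneg h1
    rcases lt_or_ge be.re 0 with h2 | h2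
    · have hB := Au_of_neg h2
      by_cases hc : 0 < al.re * be.im - al.im * be.re
      · rw [if_neg (by rintro ⟨h, _, _⟩; linarith), if_pos ⟨h2, h1, hc⟩]
        have hnn : 0 ≤ Complex.arg (be / al) := by
          by_contra hcon
          have := harg_neg.mpr (not_le.mp hcon)
          linarith
        have hk' : Au be - Au al - Complex.arg (be / al) + 2 * Real.pi
            = 2 * Real.pi * ((k + 1 : ℤ) : ℝ) := by
          push_cast; linarith
        have := int_case hk' (by linarith [hA.1, hA.2, hB.1, hB.2])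
          (by linarith [hA.1, hA.2, hB.1, hB.2])
        linarith
      · rw [if_neg (by rintro ⟨h, _, _⟩; linarith), if_neg (by rintro ⟨_, _, h⟩; exact hc h)]
        rcases eq_or_lt_of_le (not_lt.mp hc) with h0 | h0
        · exfalso
          have h3 : (be / al).im = 0 := by rw [him, h0]; simp
          have h4 : be = ((be / al).re : ℂ) * al := by
            have : be / al = ((be / al).re : ℂ) := by
              apply Complex.ext
              · simp
              · simp [h3]
            rw [← this, div_mul_cancel₀ _ ha]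
          have h5 : be.re = (be / al).re * al.re := by
            have := congrArg Complex.re h4
            rw [Complex.re_ofReal_mul] at this
            exact this
          have h6 : ¬ (be / al).re < 0 := fun h => hnot ⟨h, h3⟩
          push Not at h6
          nlinarith [mul_nonneg h6 h1]
        · have hneg := harg_neg.mp h0
          have := int_case hk (by linarith [hA.1, hA.2, hB.1, hB.2])
            (by linarith [hA.1, hA.2, hB.1, hB.2])
          linarith
    · have hB := Au_of_nonneg h2
      rw [if_neg (by rintro ⟨h, _, _⟩; linarith), if_neg (by rintro ⟨h, _, _⟩; linarith)]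
      have := int_case hk (by linarith [hA.1, hA.2, hB.1, hB.2]) (by linarith [hA.1, hA.2, hB.1, hB.2])
      linarith

/-- contribution of the left ray, ending at `P` -/
noncomputable def rhoL (P p : ℂ) : ℝ := if p.re ≤ P.re ∧ p.im < P.im then 1 else 0

/-- contribution of the right ray, starting at `Q` -/
noncomputable def rhoR (Q p : ℂ) : ℝ := if Q.re < p.re ∧ p.im < Q.im then 1 else 0

theorem arg_I_mul {z : ℂ} (hz : z ≠ 0) :
    ∃ k : ℤ, Au z - Complex.arg z - Real.pi / 2 = 2 * Real.pi * k := by
  have h1 : (Complex.arg (I * z) : Real.Angle) = Complex.arg I + Complex.arg z :=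
    Complex.arg_mul_coe_angle I_ne_zero hz
  have h2 : ((Au z : ℝ) : Real.Angle) = ((Complex.arg z + Real.pi / 2 : ℝ) : Real.Angle) := by
    unfold Au
    rw [h1, Complex.arg_I, add_comm, Real.Angle.coe_add]
  obtain ⟨k, hk⟩ := Real.Angle.angle_eq_iff_two_pi_dvd_sub.mp h2
  exact ⟨k, by linarith⟩

theorem rhoR_eq {Q p : ℂ} (h : ¬ (p.im = Q.im ∧ Q.re ≤ p.re)) :
    Au (Q - p) + 2 * Real.pi * rhoR Q p = Complex.arg (Q - p) + Real.pi / 2 := by
  have hpi := Real.pi_pos
  have hz : Q - p ≠ 0 := by
    intro h0
    apply h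
    rw [sub_eq_zero.mp h0]; simp
  obtain ⟨k, hk⟩ := arg_I_mul hz
  unfold rhoR
  rcases le_or_gt 0 (Q - p).re with h1 | h1
  · have hA := Au_of_nonneg h1
    have h2 : ¬ Q.re < p.re := by
      simp only [Complex.sub_re] at h1
      linarith
    rw [if_neg (fun h => h2 h.1)]
    have h3 : |Complex.arg (Q - p)| ≤ Real.pi / 2 := Complex.abs_arg_le_pi_div_two_iff.mpr h1
    rw [abs_le] at h3
    have := int_case hk (by linarith [hA.1, hA.2, h3.1, h3.2])
      (by linarith [hA.1, hA.2, h3.1, h3.2])
    linarith
  · have hA := Au_of_neg h1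
    have h2 : Q.re < p.re := by
      simp only [Complex.sub_re] at h1
      linarith
    rcases lt_trichotomy p.im Q.im with h3 | h3 | h3
    · rw [if_pos ⟨h2, h3⟩]
      have h4 : 0 ≤ Complex.arg (Q - p) := Complex.arg_nonneg_iff.mpr (by
        simp only [Complex.sub_im]; linarith)
      have h5 := Complex.arg_le_pi (Q - p)
      have hk' : Au (Q - p) - Complex.arg (Q - p) - Real.pi / 2 + 2 * Real.pi
          = 2 * Real.pi * ((k + 1 : ℤ) : ℝ) := by
        push_cast; linarith
      have := int_case hk' (by linarith [hA.1, hA.2]) (by linarith [hA.1, hA.2])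
      linarith
    · exact absurd ⟨h3, h2.le⟩ h
    · rw [if_neg (fun h => by linarith [h.2])]
      have h4 : Complex.arg (Q - p) < 0 := Complex.arg_neg_iff.mpr (by
        simp only [Complex.sub_im]; linarith)
      have h5 := Complex.neg_pi_lt_arg (Q - p)
      have := int_case hk (by linarith [hA.1, hA.2]) (by linarith [hA.1, hA.2])
      linarith

theorem rhoL_eq {P p : ℂ} (h : ¬ (p.im = P.im ∧ p.re ≤ P.re)) :
    - Au (P - p) + 2 * Real.pi * rhoL P p = - Complex.arg (p - P) + Real.pi / 2 := by
  have hpi := Real.pi_pos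
  have hz : P - p ≠ 0 := by
    intro h0
    apply h
    rw [sub_eq_zero.mp h0]; simp
  obtain ⟨k, hk⟩ : ∃ k : ℤ, Complex.arg (p - P) - Au (P - p) - Real.pi / 2
      = 2 * Real.pi * k := by
    have h1 : (Complex.arg (I * (I * (P - p))) : Real.Angle)
        = Complex.arg I + Complex.arg (I * (P - p)) :=
      Complex.arg_mul_coe_angle I_ne_zero (mul_ne_zero I_ne_zero hz)
    have h0 : I * (I * (P - p)) = p - P := by
      rw [← mul_assoc, Complex.I_mul_I]; ring
    rw [h0] at h1
    have h2 : ((Complex.arg (p - P) : ℝ) : Real.Angle)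
        = ((Au (P - p) + Real.pi / 2 : ℝ) : Real.Angle) := by
      unfold Au
      rw [h1, Complex.arg_I, add_comm, Real.Angle.coe_add]
    obtain ⟨k, hk⟩ := Real.Angle.angle_eq_iff_two_pi_dvd_sub.mp h2
    exact ⟨k, by linarith⟩
  unfold rhoL
  rcases le_or_gt 0 (P - p).re with h1 | h1
  · have hA := Au_of_nonneg h1
    have h2 : p.re ≤ P.re := by
      simp only [Complex.sub_re] at h1
      linarith
    rcases lt_trichotomy p.im P.im with h3 | h3 | h3
    · rw [if_pos ⟨h2, h3⟩]
      have h4 : Complex.arg (p - P) < 0 := Complex.arg_neg_iff.mpr (by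
        simp only [Complex.sub_im]; linarith)
      have h5 := Complex.neg_pi_lt_arg (p - P)
      have hk' : Complex.arg (p - P) - Au (P - p) - Real.pi / 2 + 2 * Real.pi
          = 2 * Real.pi * ((k + 1 : ℤ) : ℝ) := by
        push_cast; linarith
      have := int_case hk' (by linarith [hA.1, hA.2]) (by linarith [hA.1, hA.2])
      linarith
    · exact absurd ⟨h3, h2⟩ h
    · rw [if_neg (fun h => by linarith [h.2])]
      have h4 : 0 ≤ Complex.arg (p - P) := Complex.arg_nonneg_iff.mpr (by
        simp only [Complex.sub_im]; linarith)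
      have h5 := Complex.arg_le_pi (p - P)
      have := int_case hk (by linarith [hA.1, hA.2]) (by linarith [hA.1, hA.2])
      linarith
  · have hA := Au_of_neg h1
    have h2 : ¬ p.re ≤ P.re := by
      simp only [Complex.sub_re] at h1
      linarith
    rw [if_neg (fun h => h2 h.1)]
    have h3 : |Complex.arg (p - P)| ≤ Real.pi / 2 := by
      apply Complex.abs_arg_le_pi_div_two_iff.mpr
      simp only [Complex.sub_re] at h1 ⊢
      linarith
    rw [abs_le] at h3
    have := int_case hk (by linarith [hA.1, hA.2, h3.1, h3.2])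
      (by linarith [hA.1, hA.2, h3.1, h3.2])
    linarith

/-- crossing number of the polygonal line `v 0, …, v n` with its two end rays -/
noncomputable def X (v : ℕ → ℂ) (n : ℕ) (p : ℂ) : ℝ :=
  ∑ i ∈ Finset.range n, chi (v i) (v (i + 1)) p + rhoL (v 0) p + rhoR (v n) p

/-- the polygonal line with its two end rays -/
def track (v : ℕ → ℂ) (n : ℕ) : Set ℂ :=
  {p | (∃ i < n, p ∈ segment ℝ (v i) (v (i + 1))) ∨ (p.im = (v 0).im ∧ p.re ≤ (v 0).re) ∨
    (p.im = (v n).im ∧ (v n).re ≤ p.re)}

theorem X_eq {v : ℕ → ℂ} {n : ℕ} {p : ℂ} (hp : p ∉ track v n) :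
    2 * Real.pi * X v n p = Complex.arg (v n - p) - Complex.arg (p - v 0) + Real.pi
      - ∑ i ∈ Finset.range n, Complex.arg ((v (i + 1) - p) / (v i - p)) := by
  unfold track at hp
  simp only [mem_ofPred_eq, not_or, not_exists] at hp
  obtain ⟨h1, h2, h3⟩ := hp
  have hs : ∑ i ∈ Finset.range n, Complex.arg ((v (i + 1) - p) / (v i - p))
      = Au (v n - p) - Au (v 0 - p)
        - 2 * Real.pi * ∑ i ∈ Finset.range n, chi (v i) (v (i + 1)) p := by
    rw [Finset.mul_sum, ← Finset.sum_range_sub (fun i => Au (v i - p)) n, ← Finset.sum_sub_distrib]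
    apply Finset.sum_congr rfl
    intro i hi
    rw [arg_ratio (fun h => h1 i ⟨Finset.mem_range.mp hi, h⟩)]
  have hL := rhoL_eq h2
  have hR := rhoR_eq h3
  unfold X
  rw [hs]
  linarith

theorem chi_int (a b p : ℂ) : ∃ k : ℤ, chi a b p = k := by
  unfold chi
  split_ifs
  · exact ⟨1, by simp⟩
  · exact ⟨-1, by simp⟩
  · exact ⟨0, by simp⟩

theorem X_int (v : ℕ → ℂ) (n : ℕ) (p : ℂ) : ∃ k : ℤ, X v n p = k := by
  choose k hk using fun i => chi_int (v i) (v (i + 1)) p
  have h1 : ∃ a : ℤ, rhoL (v 0) p = a := by
    unfold rhoL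
    split_ifs
    · exact ⟨1, by simp⟩
    · exact ⟨0, by simp⟩
  have h2 : ∃ a : ℤ, rhoR (v n) p = a := by
    unfold rhoR
    split_ifs
    · exact ⟨1, by simp⟩
    · exact ⟨0, by simp⟩
  obtain ⟨a, ha⟩ := h1
  obtain ⟨b, hb⟩ := h2
  refine ⟨∑ i ∈ Finset.range n, k i + a + b, ?_⟩
  unfold X
  rw [ha, hb]
  push_cast
  congr 2
  exact Finset.sum_congr rfl fun i _ => hk i

theorem X_continuousOn (v : ℕ → ℂ) (n : ℕ) : ContinuousOn (X v n) (track v n)ᶜ := by
  have hpi := Real.pi_pos
  have h1 : ContinuousOn (fun p => (1 / (2 * Real.pi)) * (Complex.arg (v n - p)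
      - Complex.arg (p - v 0) + Real.pi
      - ∑ i ∈ Finset.range n, Complex.arg ((v (i + 1) - p) / (v i - p)))) (track v n)ᶜ := by
    intro p hp
    apply ContinuousAt.continuousWithinAt
    have hp' : p ∉ track v n := hp
    unfold track at hp'
    simp only [mem_ofPred_eq, not_or, not_exists] at hp'
    obtain ⟨h1, h2, h3⟩ := hp'
    refine ContinuousAt.mul continuousAt_const ?_
    refine ContinuousAt.sub (ContinuousAt.add (ContinuousAt.sub ?_ ?_) continuousAt_const) ?_
    · refine ContinuousAt.comp' (f := fun p => v n - p) (g := Complex.arg) (x := p) ?_ (by fun_prop)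
      apply Complex.continuousAt_arg
      rw [Complex.mem_slitPlane_iff]
      by_contra hcon
      push Not at hcon
      simp only [Complex.sub_re, Complex.sub_im] at hcon
      exact h3 ⟨by linarith [hcon.2], by linarith [hcon.1]⟩
    · refine ContinuousAt.comp' (f := fun p => p - v 0) (g := Complex.arg) (x := p) ?_ (by fun_prop)
      apply Complex.continuousAt_arg
      rw [Complex.mem_slitPlane_iff]
      by_contra hcon
      push Not at hcon
      simp only [Complex.sub_re, Complex.sub_im] at hcon
      exact h2 ⟨by linarith [hcon.2], by linarith [hcon.1]⟩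
    · apply tendsto_finsetSum
      intro i hi
      have h4 : p ∉ segment ℝ (v i) (v (i + 1)) := fun h => h1 i ⟨Finset.mem_range.mp hi, h⟩
      have h5 : v i - p ≠ 0 := by
        intro h
        apply h4
        rw [← sub_eq_zero.mp h]
        exact left_mem_segment ℝ _ _
      refine ContinuousAt.comp' (f := fun p => (v (i + 1) - p) / (v i - p)) (g := Complex.arg)
        (x := p) ?_ ?_
      · exact Complex.continuousAt_arg (ratio_mem_slitPlane h4)
      · exact ContinuousAt.div (by fun_prop) (by fun_prop) h5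
  refine h1.congr ?_
  intro p hp
  have := X_eq (show p ∉ track v n from hp)
  show X v n p = (1 / (2 * Real.pi)) * _
  rw [← this]
  field_simp

theorem int_const_of_preconnected {S : Set ℂ} (hS : IsPreconnected S) {F : ℂ → ℝ}
    (hF : ContinuousOn F S) (hint : ∀ x ∈ S, ∃ k : ℤ, F x = k) {x y : ℂ} (hx : x ∈ S)
    (hy : y ∈ S) : F x = F y := by
  have key : ∀ x ∈ S, ∀ y ∈ S, ¬ F x < F y := by
    intro x hx y hy hlt
    obtain ⟨k, hk⟩ := hint x hx
    obtain ⟨m, hm⟩ := hint y hy
    have h1 : (k : ℝ) < m := by rw [← hk, ← hm]; exact hlt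
    have h2 : k < m := by exact_mod_cast h1
    have h3 : (k : ℝ) + 1 ≤ m := by exact_mod_cast h2
    have h4 := hS.intermediate_value hx hy hF
    obtain ⟨z, hz, hz'⟩ := h4 (show (k : ℝ) + 1 / 2 ∈ Icc (F x) (F y) from
      ⟨by rw [hk]; linarith, by rw [hm]; linarith⟩)
    obtain ⟨j, hj⟩ := hint z hz
    rw [hj] at hz'
    have h5 : (k : ℝ) < j := by linarith
    have h6 : (j : ℝ) < k + 1 := by linarith
    have h7 : k < j := by exact_mod_cast h5
    have h8 : j < k + 1 := by exact_mod_cast h6
    omega
  rcases lt_trichotomy (F x) (F y) with h | h | h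
  · exact absurd h (key x hx y hy)
  · exact h
  · exact absurd h (key y hy x hx)

theorem X_const {v : ℕ → ℂ} {n : ℕ} {S : Set ℂ} (hS : IsPreconnected S)
    (hd : ∀ p ∈ S, p ∉ track v n) {x y : ℂ} (hx : x ∈ S) (hy : y ∈ S) :
    X v n x = X v n y :=
  int_const_of_preconnected hS ((X_continuousOn v n).mono hd) (fun p _ => X_int v n p) hx hy

theorem X_left {v : ℕ → ℂ} {n : ℕ} {p : ℂ} (h : ∀ i ≤ n, p.re ≤ (v i).re) :
    X v n p = if p.im < (v 0).im then 1 else 0 := by
  unfold X
  have h1 : ∑ i ∈ Finset.range n, chi (v i) (v (i + 1)) p = 0 := by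
    apply Finset.sum_eq_zero
    intro i hi
    have hi' := Finset.mem_range.mp hi
    have a1 := h i hi'.le
    have a2 := h (i + 1) (by omega)
    unfold chi
    rw [if_neg (fun hh => by linarith [hh.1]), if_neg (fun hh => by linarith [hh.1])]
  have h2 : rhoR (v n) p = 0 := by
    unfold rhoR
    rw [if_neg (fun hh => by linarith [hh.1, h n le_rfl])]
  rw [h1, h2]
  unfold rhoL
  simp only [h 0 (Nat.zero_le _), true_and, zero_add, add_zero]

end Pool.Agent.LipTrap
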